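import Pool.Agent.TH212.EH.A5
import Pool.Agent.H373R2.T7.BilE

set_option autoImplicit false

/-! Exceptional sets, the dual form, polynomial values. -/

namespace Pool.Agent.TH212.EH
open Finset Polynomial
open Pool.Agent.W93.LV
open Pool.Agent.H373R2.T7 (energy energy_poly cf abs_eval_le)

/-- Markov's inequality -/
lemma markov {ι : Type} [Fintype ι] (P : ι → Prop) [DecidablePred P] (F : ι → ℝ) (t b : ℝ) (ht : 0 < t)
    (hF : ∀ i, P i → t ≤ F i) (hF0 : ∀ i, 0 ≤ F i) (hb : ∑ i, F i ≤ b) : ((univ.filter P).card : ℝ) ≤ b / t := by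
  rw [le_div_iff₀ ht]
  calc ((univ.filter P).card : ℝ) * t = ∑ i ∈ univ.filter P, t := by rw [sum_const, nsmul_eq_mul]
    _ ≤ ∑ i ∈ univ.filter P, F i := sum_le_sum fun i hi => hF i (mem_filter.1 hi).2
    _ ≤ ∑ i, F i := sum_le_sum_of_subset_of_nonneg (filter_subset _ _) (fun i _ _ => hF0 i)
    _ ≤ b := hb

open Classical in
/-- few exceptions -/
theorem few (p B C T U : ℕ) : ∃ K N0 : ℕ, ∀ N : ℕ, N0 ≤ N → ∀ (ι : Type) [Fintype ι] (v : ι → ℤ),
    (∀ i, |v i| ≤ B * N) → (En p v : ℝ) * N ≤ Real.log N ^ C * (Fintype.card ι : ℝ) ^ (2 * p) →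
    ∀ lam : ℕ → ℝ, (∀ q, |lam q| ≤ Real.log N ^ T * (q.divisors.card : ℝ) ^ T) →
    ((univ.filter (fun i : ι => 0 < v i ∧ ∃ Q : ℕ, (Q : ℝ) ≤ level K N ∧ ∃ y : ℕ, y ≤ B * N ∧
      (N : ℝ) / Real.log N ^ U < |W lam Q y (v i).toNat|)).card : ℝ) ≤ Fintype.card ι / Real.log N ^ U ∧
    ∀ y : ℕ → ℕ, (∀ q, y q ≤ B * N) →
    ((univ.filter (fun i : ι => 0 < v i ∧ ∃ Q : ℕ, (Q : ℝ) ≤ level K N ∧
      (N : ℝ) / Real.log N ^ U < |WW lam y Q (v i).toNat|)).card : ℝ) ≤ Fintype.card ι / Real.log N ^ U := by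
  obtain ⟨K, n0, h0⟩ := allW p B C T (2 * U)
  obtain ⟨n1, h1⟩ := large 3 (n0 + 3)
  refine ⟨K, n1, fun N hN ι _ v hv hE lam hlam => ?_⟩
  obtain ⟨hN1, hL3, hL1⟩ := h1 N hN
  have c0 := h0 N (by omega) ι v hv hE lam hlam
  have hN0 : (0 : ℝ) < N := by exact_mod_cast (by omega : 0 < N)
  obtain ⟨L, hL⟩ : ∃ L, L = Real.log (N : ℝ) := ⟨_, rfl⟩
  rw [← hL] at hL3 hL1 c0 ⊢
  have hL0 : 0 < L := by linarith
  have hlev : (0 : ℝ) ≤ level K N := by unfold level; positivity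
  have e : (N : ℝ) * Fintype.card ι / L ^ (2 * U) / (N / L ^ U) = Fintype.card ι / L ^ U := by
    rw [two_mul, pow_add]
    field_simp
  constructor
  · have hch : ∀ i : ι, ∃ t : ℕ × ℕ, (t.1 : ℝ) ≤ level K N ∧ t.2 ≤ B * N ∧
        ((∃ Q : ℕ, (Q : ℝ) ≤ level K N ∧ ∃ y : ℕ, y ≤ B * N ∧ (N : ℝ) / L ^ U < |W lam Q y (v i).toNat|) →
          (N : ℝ) / L ^ U < |W lam t.1 t.2 (v i).toNat|) := by
      intro i
      by_cases h : ∃ Q : ℕ, (Q : ℝ) ≤ level K N ∧ ∃ y : ℕ, y ≤ B * N ∧ (N : ℝ) / L ^ U < |W lam Q y (v i).toNat|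
      · obtain ⟨Q, h1, y, h2, h3⟩ := h
        exact ⟨(Q, y), h1, h2, fun _ => h3⟩
      · exact ⟨(0, 0), by simpa using hlev, Nat.zero_le _, fun h' => absurd h' h⟩
    choose t ht1 ht2 ht3 using hch
    have k1 := (c0 (fun i => (t i).1) ht1).1 (fun i => (t i).2) ht2
    rw [sum_filter] at k1
    have := markov (fun i : ι => 0 < v i ∧ ∃ Q : ℕ, (Q : ℝ) ≤ level K N ∧ ∃ y : ℕ, y ≤ B * N ∧
      (N : ℝ) / L ^ U < |W lam Q y (v i).toNat|) _ (N / L ^ U) _ (by positivity) (by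
        rintro i ⟨hi, hi2⟩
        rw [if_pos hi]
        exact (ht3 i hi2).le) (by
        intro i
        split_ifs <;> positivity) k1
    rw [e] at this
    exact this
  · intro y hy
    have hch : ∀ i : ι, ∃ t : ℕ, (t : ℝ) ≤ level K N ∧
        ((∃ Q : ℕ, (Q : ℝ) ≤ level K N ∧ (N : ℝ) / L ^ U < |WW lam y Q (v i).toNat|) →
          (N : ℝ) / L ^ U < |WW lam y t (v i).toNat|) := by
      intro i
      by_cases h : ∃ Q : ℕ, (Q : ℝ) ≤ level K N ∧ (N : ℝ) / L ^ U < |WW lam y Q (v i).toNat|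
      · obtain ⟨Q, h1, h3⟩ := h
        exact ⟨Q, h1, fun _ => h3⟩
      · exact ⟨0, by simpa using hlev, fun h' => absurd h' h⟩
    choose t ht1 ht3 using hch
    have k1 := (c0 t ht1).2 y hy
    rw [sum_filter] at k1
    have := markov (fun i : ι => 0 < v i ∧ ∃ Q : ℕ, (Q : ℝ) ≤ level K N ∧
      (N : ℝ) / L ^ U < |WW lam y Q (v i).toNat|) _ (N / L ^ U) _ (by positivity) (by
        rintro i ⟨hi, hi2⟩
        rw [if_pos hi]
        exact (ht3 i hi2).le) (by
        intro i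
        split_ifs <;> positivity) k1
    rw [e] at this
    exact this

open Classical in
/-- the dual form: absolute values over the moduli -/
theorem dual (p B C T U : ℕ) : ∃ K N0 : ℕ, ∀ N : ℕ, N0 ≤ N → ∀ (ι : Type) [Fintype ι] (v : ι → ℤ),
    (∀ i, |v i| ≤ B * N) → (En p v : ℝ) * N ≤ Real.log N ^ C * (Fintype.card ι : ℝ) ^ (2 * p) →
    ∀ c : ι → ℝ, (∀ i, |c i| ≤ Real.log N ^ T) → ∀ Q : ℕ, (Q : ℝ) ≤ level K N → ∀ y : ℕ → ℕ, (∀ q, y q ≤ B * N) →
    ∑ q ∈ Icc 1 Q, (q.divisors.card : ℝ) ^ T * |∑ i ∈ univ.filter (fun i => 0 < v i ∧ (v i).toNat.Coprime q),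
      c i * (Fu (fun n => ArithmeticFunction.vonMangoldt n) (y q) q (v i).toNat - (y q : ℝ) / Nat.totient q)| ≤
      N * Fintype.card ι / Real.log N ^ U := by
  obtain ⟨K, n0, h0⟩ := allW p B C T (U + T)
  obtain ⟨n1, h1⟩ := large 3 (n0 + 3)
  refine ⟨K, n1, fun N hN ι _ v hv hE c hc Q hQ y hy => ?_⟩
  obtain ⟨hN1, hL3, hL1⟩ := h1 N hN
  have c0 := h0 N (by omega) ι v hv hE
  have hN0 : (0 : ℝ) < N := by exact_mod_cast (by omega : 0 < N)
  obtain ⟨L, hL⟩ : ∃ L, L = Real.log (N : ℝ) := ⟨_, rfl⟩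
  rw [← hL] at hL3 hL1 c0 hc ⊢
  have hL0 : 0 < L := by linarith
  obtain ⟨F, hF⟩ : ∃ F : ℕ → ι → ℝ, F = fun q i =>
    Fu (fun n => ArithmeticFunction.vonMangoldt n) (y q) q (v i).toNat - (y q : ℝ) / Nat.totient q := ⟨_, rfl⟩
  obtain ⟨I, hI⟩ : ∃ I : ℕ → ℝ, I = fun q => ∑ i ∈ univ.filter (fun i => 0 < v i ∧ (v i).toNat.Coprime q), c i * F q i := ⟨_, rfl⟩
  obtain ⟨s, hs⟩ : ∃ s : ℕ → ℝ, s = fun q => if 0 ≤ I q then (q.divisors.card : ℝ) ^ T else -(q.divisors.card : ℝ) ^ T := ⟨_, rfl⟩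
  have hs1 : ∀ q, |s q| ≤ L ^ T * (q.divisors.card : ℝ) ^ T := by
    intro q
    have h0 : (0 : ℝ) ≤ (q.divisors.card : ℝ) ^ T := by positivity
    have h1 : |s q| = (q.divisors.card : ℝ) ^ T := by
      rw [hs]
      simp only
      split_ifs
      · exact abs_of_nonneg h0
      · rw [abs_neg, abs_of_nonneg h0]
    rw [h1]
    exact le_mul_of_one_le_left h0 (one_le_pow₀ hL1)
  have hsI : ∀ q, s q * I q = (q.divisors.card : ℝ) ^ T * |I q| := by
    intro q
    rw [hs]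
    simp only
    split_ifs with h
    · rw [abs_of_nonneg h]
    · rw [abs_of_neg (lt_of_not_ge h)]
      ring
  have k1 := (c0 s hs1 (fun _ => Q) (fun _ => hQ)).2 y hy
  have e1 : ∑ q ∈ Icc 1 Q, (q.divisors.card : ℝ) ^ T * |I q| = ∑ i ∈ univ.filter (fun i => 0 < v i), c i * WW s y Q (v i).toNat := by
    simp only [← hsI]
    rw [hI]
    unfold WW
    simp only [mul_sum, sum_filter]
    rw [sum_comm]
    apply sum_congr rfl
    intro i _
    by_cases h : 0 < v i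
    · rw [if_pos h]
      apply sum_congr rfl
      intro q _
      by_cases h2 : (v i).toNat.Coprime q
      · rw [if_pos ⟨h, h2⟩, if_pos h2, hF]
        ring
      · rw [if_neg (fun h' => h2 h'.2), if_neg h2]
        ring
    · rw [if_neg h]
      apply sum_eq_zero
      intro q _
      rw [if_neg (fun h' => h h'.1), mul_zero]
  have e2 : ∑ q ∈ Icc 1 Q, (q.divisors.card : ℝ) ^ T * |∑ i ∈ univ.filter (fun i => 0 < v i ∧ (v i).toNat.Coprime q),
      c i * (Fu (fun n => ArithmeticFunction.vonMangoldt n) (y q) q (v i).toNat - (y q : ℝ) / Nat.totient q)| =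
      ∑ q ∈ Icc 1 Q, (q.divisors.card : ℝ) ^ T * |I q| := by
    rw [hI, hF]
  rw [e2, e1]
  calc ∑ i ∈ univ.filter (fun i => 0 < v i), c i * WW s y Q (v i).toNat
      ≤ ∑ i ∈ univ.filter (fun i => 0 < v i), L ^ T * |WW s y Q (v i).toNat| := by
        apply sum_le_sum
        intro i _
        refine (le_abs_self _).trans ?_
        rw [abs_mul]
        exact mul_le_mul_of_nonneg_right (hc i) (abs_nonneg _)
    _ = L ^ T * ∑ i ∈ univ.filter (fun i => 0 < v i), |WW s y Q (v i).toNat| := by rw [mul_sum]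
    _ ≤ L ^ T * (N * Fintype.card ι / L ^ (U + T)) := mul_le_mul_of_nonneg_left k1 (by positivity)
    _ = _ := by rw [pow_add]; field_simp

/-- the energy of the values of a polynomial -/
lemma En_poly (f : ℤ[X]) (p M : ℕ) (c : ℤ) :
    En p (fun i : Fin M => c + f.eval (((i : ℕ) + 1 : ℕ) : ℤ)) ≤ energy p M (fun m => f.eval (m : ℤ)) := by
  classical
  unfold energy En
  rw [Nat.card_eq_fintype_card, Fintype.card_subtype]
  apply card_le_card_of_injOn (fun q => (fun j => (q.1 j : ℕ) + 1, fun j => (q.2 j : ℕ) + 1))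
  · intro q hq
    rw [mem_coe, mem_filter] at hq
    rw [mem_coe, mem_filter, mem_product, Fintype.mem_piFinset, Fintype.mem_piFinset]
    refine ⟨⟨fun j => mem_Icc.2 ⟨Nat.succ_pos _, ?_⟩, fun j => mem_Icc.2 ⟨Nat.succ_pos _, ?_⟩⟩, ?_⟩
    · exact (q.1 j).2
    · exact (q.2 j).2
    · have h1 := hq.2
      simp only [sum_add_distrib] at h1
      exact add_left_cancel h1
  · intro q _ q' _ h2
    simp only [Prod.mk.injEq] at h2
    apply Prod.ext
    · funext j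
      have := congrFun h2.1 j
      apply Fin.ext
      simpa using this
    · funext j
      have := congrFun h2.2 j
      apply Fin.ext
      simpa using this

/-- the energy bound without a condition on the sign of the leading coefficient -/
lemma energy_poly' (f : ℤ[X]) (hd : 1 ≤ f.natDegree) :
    ∃ p : ℕ, ∃ C : ℝ, 0 < C ∧ ∀ x : ℕ, 1 ≤ x →
      (energy p x (fun m => f.eval (m : ℤ)) : ℝ) * (x : ℝ) ^ f.natDegree ≤ C * (x : ℝ) ^ (2 * p) := by
  rcases lt_trichotomy f.leadingCoeff 0 with h | h | h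
  · obtain ⟨p, C, hC, hE⟩ := energy_poly (-f) (by rwa [natDegree_neg]) (by rw [leadingCoeff_neg]; omega)
    refine ⟨p, C, hC, fun x hx => ?_⟩
    have := hE x hx
    rw [natDegree_neg] at this
    have e : energy p x (fun m => (-f).eval (m : ℤ)) = energy p x (fun m => f.eval (m : ℤ)) := by
      unfold energy
      congr 1
      apply filter_congr
      intro q _
      simp only [eval_neg, sum_neg_distrib, neg_inj]
    rw [e] at this
    exact this
  · rw [leadingCoeff_eq_zero] at h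
    subst h
    simp at hd
  · exact energy_poly f hd h

/-- the hypotheses of the general theorem for polynomial values -/
theorem poly_hyp (f : ℤ[X]) (hd : 1 ≤ f.natDegree) (B : ℕ) :
    ∃ p B' M0 : ℕ, B ≤ B' ∧ ∀ M : ℕ, M0 ≤ M → ∀ c : ℤ, |c| ≤ B * (M ^ f.natDegree : ℕ) →
      (∀ i : Fin M, |c + f.eval (((i : ℕ) + 1 : ℕ) : ℤ)| ≤ B' * (M ^ f.natDegree : ℕ)) ∧
      (En p (fun i : Fin M => c + f.eval (((i : ℕ) + 1 : ℕ) : ℤ)) : ℝ) * (M ^ f.natDegree : ℕ) ≤
        Real.log (M ^ f.natDegree : ℕ) ^ 1 * (Fintype.card (Fin M) : ℝ) ^ (2 * p) := by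
  obtain ⟨p, C, hC, hE⟩ := energy_poly' f hd
  obtain ⟨m1, h1⟩ := large C 3
  refine ⟨p, B + cf f, m1, by omega, fun M hM c hc => ?_⟩
  have hMp : M ≤ M ^ f.natDegree := Nat.le_self_pow (by omega) M
  obtain ⟨h3, hLC, _⟩ := h1 (M ^ f.natDegree) (hM.trans hMp)
  have h4 := h1 M hM
  have hM1 : 1 ≤ M := by omega
  constructor
  · intro i
    refine (abs_add_le _ _).trans ?_
    push_cast at hc ⊢
    have q1 := abs_eval_le f ((i : ℕ) + 1) (by omega)
    have q2 : (((i : ℕ) + 1 : ℕ) : ℤ) ^ f.natDegree ≤ (M : ℤ) ^ f.natDegree := by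
      apply pow_le_pow_left₀ (by positivity)
      exact_mod_cast (i.2 : (i : ℕ) + 1 ≤ M)
    push_cast at q1 q2
    have q3 : (0 : ℤ) ≤ cf f := by positivity
    nlinarith
  · have q1 := En_poly f p M c
    have q2 := hE M hM1
    rw [Fintype.card_fin, pow_one]
    push_cast
    calc (En p (fun i : Fin M => c + f.eval (((i : ℕ) + 1 : ℕ) : ℤ)) : ℝ) * (M : ℝ) ^ f.natDegree
        ≤ (energy p M (fun m => f.eval (m : ℤ)) : ℝ) * (M : ℝ) ^ f.natDegree := by
          apply mul_le_mul_of_nonneg_right _ (by positivity)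
          exact_mod_cast q1
      _ ≤ C * (M : ℝ) ^ (2 * p) := q2
      _ ≤ _ := by
          apply mul_le_mul_of_nonneg_right _ (by positivity)
          push_cast at hLC
          exact hLC

end Pool.Agent.TH212.EH
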