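import Mathlib

set_option autoImplicit false

/-! Elementary bounds: Euler's function, a geometric net. -/

namespace Pool.Agent.TH212.EH
open Finset

lemma prod_low (S : Finset ℕ) (hS : ∀ p ∈ S, 2 ≤ p) : (1 : ℚ) / (S.card + 1) ≤ ∏ p ∈ S, (1 - (p : ℚ)⁻¹) := by
  induction S using Finset.induction_on_max with
  | empty => simp
  | insert a s hmax ih =>
    have ha : a ∉ s := fun h => (hmax a h).false
    rw [prod_insert ha, card_insert_of_notMem ha]
    have h1 := ih fun p hp => hS p (mem_insert_of_mem hp)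
    have h2 : 2 ≤ a := hS a (mem_insert_self _ _)
    have h3 : s.card ≤ a - 2 := by
      have : s ⊆ Ico 2 a := by
        intro p hp
        rw [mem_Ico]
        exact ⟨hS p (mem_insert_of_mem hp), hmax p hp⟩
      have := card_le_card this
      rwa [Nat.card_Ico] at this
    have h4 : (s.card : ℚ) + 2 ≤ a := by
      exact_mod_cast (by omega : s.card + 2 ≤ a)
    have hc : (0 : ℚ) ≤ s.card := Nat.cast_nonneg _
    have h5 : (a : ℚ)⁻¹ ≤ 1 / (s.card + 2) := by
      rw [← one_div]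
      exact one_div_le_one_div_of_le (by linarith) h4
    have h6 : ((s.card : ℚ) + 1) / (s.card + 2) ≤ 1 - (a : ℚ)⁻¹ := by
      have : ((s.card : ℚ) + 1) / (s.card + 2) = 1 - 1 / (s.card + 2) := by
        field_simp
        ring
      rw [this]
      linarith
    calc (1 : ℚ) / ((s.card + 1 : ℕ) + 1) = ((s.card : ℚ) + 1) / (s.card + 2) * (1 / (s.card + 1)) := by
          push_cast
          field_simp
          ring
      _ ≤ (1 - (a : ℚ)⁻¹) * ∏ p ∈ s, (1 - (p : ℚ)⁻¹) := by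
          apply mul_le_mul h6 h1 (by positivity)
          refine le_trans (by positivity) h6

lemma phi_low (q : ℕ) (hq : 1 ≤ q) : (q : ℝ) ≤ (1 + 2 * Real.log q) * Nat.totient q := by
  have h1 := prod_low q.primeFactors (fun p hp => (Nat.prime_of_mem_primeFactors hp).two_le)
  have h2 := Nat.totient_eq_mul_prod_factors q
  have h3 : (q : ℚ) ≤ (q.primeFactors.card + 1) * Nat.totient q := by
    rw [h2]
    rw [div_le_iff₀ (by positivity)] at h1
    have h0 : (0 : ℚ) ≤ q := Nat.cast_nonneg _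
    nlinarith
  have h4 : (q : ℝ) ≤ (q.primeFactors.card + 1) * Nat.totient q := by exact_mod_cast h3
  have h5 : (q.primeFactors.card : ℝ) ≤ 2 * Real.log q := by
    have h8 : 2 ^ q.primeFactors.card ≤ q := by
      calc 2 ^ q.primeFactors.card = ∏ p ∈ q.primeFactors, 2 := by rw [prod_const]
        _ ≤ ∏ p ∈ q.primeFactors, p := prod_le_prod' fun p hp => (Nat.prime_of_mem_primeFactors hp).two_le
        _ ≤ q := Nat.le_of_dvd (by omega) (Nat.prod_primeFactors_dvd q)
    have q1 : (2 : ℝ) ^ q.primeFactors.card ≤ q := by exact_mod_cast h8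
    have q2 := Real.log_le_log (by positivity) q1
    rw [Real.log_pow] at q2
    have q3 : (1 : ℝ) / 2 ≤ Real.log 2 := by linarith [Real.log_two_gt_d9]
    nlinarith [(Nat.cast_nonneg q.primeFactors.card : (0 : ℝ) ≤ (q.primeFactors.card : ℝ))]
  refine h4.trans ?_
  apply mul_le_mul_of_nonneg_right _ (Nat.cast_nonneg _)
  linarith

lemma inv_phi (q : ℕ) (hq : 1 ≤ q) (X : ℕ) (hX : q ≤ X) : 1 / (Nat.totient q : ℝ) ≤ (1 + 2 * Real.log X) * (1 / q) := by
  have hφ : (0 : ℝ) < Nat.totient q := by exact_mod_cast Nat.totient_pos.2 hq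
  have hq0 : (0 : ℝ) < q := by exact_mod_cast hq
  have h1 := phi_low q hq
  have h2 : Real.log q ≤ Real.log X := Real.log_le_log hq0 (by exact_mod_cast hX)
  rw [mul_one_div, div_le_div_iff₀ hφ hq0, one_mul]
  refine h1.trans ?_
  apply mul_le_mul_of_nonneg_right _ hφ.le
  linarith

/-- the number of the `n ∈ (y', y]` in a residue class -/
lemma card_ap (y' y q a : ℕ) :
    (((Ioc y' y).filter (fun n => n ≡ a [MOD q])).card : ℝ) ≤ ((y - y' : ℕ) : ℝ) / q + 1 := by
  have h1 : ((Ioc y' y).filter (fun n => n ≡ a [MOD q])).card ≤ (y - y') / q + 1 := by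
    rcases ((Ioc y' y).filter (fun n => n ≡ a [MOD q])).eq_empty_or_nonempty with h0 | h0
    · rw [h0]; simp
    obtain ⟨m, hm⟩ : ∃ m, m = ((Ioc y' y).filter (fun n => n ≡ a [MOD q])).min' h0 := ⟨_, rfl⟩
    have hm1 := min'_mem _ h0
    rw [← hm, mem_filter, mem_Ioc] at hm1
    have hm2 : ∀ n ∈ (Ioc y' y).filter (fun n => n ≡ a [MOD q]), m ≤ n := by
      intro n hn
      rw [hm]
      exact min'_le _ _ hn
    calc ((Ioc y' y).filter (fun n => n ≡ a [MOD q])).card ≤ (range ((y - y') / q + 1)).card := by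
          apply card_le_card_of_injOn (fun n => (n - m) / q)
          · intro n hn
            have hn1 := hm2 n (by exact_mod_cast hn)
            rw [mem_coe, mem_filter, mem_Ioc] at hn
            rw [mem_coe, mem_range]
            apply Nat.lt_succ_of_le
            apply Nat.div_le_div_right
            omega
          · intro n hn n' hn' he
            have hn1 := hm2 n (by exact_mod_cast hn)
            have hn1' := hm2 n' (by exact_mod_cast hn')
            rw [mem_coe, mem_filter, mem_Ioc] at hn hn'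
            have e1 : q ∣ n - m := (Nat.modEq_iff_dvd' hn1).1 (hm1.2.trans hn.2.symm)
            have e2 : q ∣ n' - m := (Nat.modEq_iff_dvd' hn1').1 (hm1.2.trans hn'.2.symm)
            simp only at he
            have e3 : n - m = n' - m := by
              rw [← Nat.div_mul_cancel e1, ← Nat.div_mul_cancel e2, he]
            omega
      _ = _ := card_range _
  calc (((Ioc y' y).filter (fun n => n ≡ a [MOD q])).card : ℝ) ≤ (((y - y') / q + 1 : ℕ) : ℝ) := by exact_mod_cast h1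
    _ ≤ _ := by
        push_cast
        exact add_le_add Nat.cast_div_le le_rfl

/-- a geometric net -/
def gn (R Q : ℕ) : ℕ := if Q = 0 then 0 else 2 ^ Nat.log 2 Q + (2 ^ Nat.log 2 Q / R + 1) * ((Q - 2 ^ Nat.log 2 Q) / (2 ^ Nat.log 2 Q / R + 1))

/-- the points of the net -/
def nets (R J : ℕ) : Finset ℕ :=
  insert 0 ((range (J + 1) ×ˢ range (R + 1)).image (fun t => 2 ^ t.1 + (2 ^ t.1 / R + 1) * t.2))

lemma nets_card (R J : ℕ) : (nets R J).card ≤ (J + 1) * (R + 1) + 1 := by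
  unfold nets
  refine (card_insert_le _ _).trans ?_
  apply Nat.add_le_add_right
  refine card_image_le.trans ?_
  rw [card_product, card_range, card_range]

lemma gn_le (R Q : ℕ) : gn R Q ≤ Q := by
  unfold gn
  split_ifs with h
  · exact Nat.zero_le _
  have h1 : 2 ^ Nat.log 2 Q ≤ Q := Nat.pow_log_le_self 2 h
  have h2 := Nat.mul_div_le (Q - 2 ^ Nat.log 2 Q) (2 ^ Nat.log 2 Q / R + 1)
  omega

lemma gn_mem (R Q X : ℕ) (hR : 1 ≤ R) (h : Q ≤ X) : gn R Q ∈ nets R (Nat.log 2 X) := by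
  unfold gn nets
  split_ifs with h0
  · exact mem_insert_self _ _
  apply mem_insert_of_mem
  rw [mem_image]
  refine ⟨(Nat.log 2 Q, (Q - 2 ^ Nat.log 2 Q) / (2 ^ Nat.log 2 Q / R + 1)), ?_, rfl⟩
  rw [mem_product, mem_range, mem_range]
  refine ⟨Nat.lt_succ_of_le (show Nat.log 2 Q ≤ Nat.log 2 X from Nat.log_mono_right h), ?_⟩
  simp only
  rw [Nat.div_lt_iff_lt_mul (Nat.succ_pos _)]
  have h1 : Q < 2 ^ (Nat.log 2 Q + 1) := Nat.lt_pow_succ_log_self (by norm_num) Q
  rw [pow_succ] at h1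
  have h2 : 2 ^ Nat.log 2 Q < R * (2 ^ Nat.log 2 Q / R + 1) := by
    have := Nat.lt_mul_div_succ (2 ^ Nat.log 2 Q) (by omega : 0 < R)
    exact this
  calc Q - 2 ^ Nat.log 2 Q < 2 ^ Nat.log 2 Q := by omega
    _ ≤ R * (2 ^ Nat.log 2 Q / R + 1) := h2.le
    _ ≤ (R + 1) * (2 ^ Nat.log 2 Q / R + 1) := Nat.mul_le_mul_right _ (by omega)

lemma gn_near (R Q : ℕ) (hR : 1 ≤ R) : ((Q - gn R Q : ℕ) : ℝ) ≤ (gn R Q : ℝ) / R := by
  have hR0 : (0 : ℝ) < R := by exact_mod_cast hR
  have h : Q - gn R Q ≤ gn R Q / R := by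
    unfold gn
    split_ifs with h
    · subst h; simp
    obtain ⟨P, hP⟩ : ∃ P, P = 2 ^ Nat.log 2 Q := ⟨_, rfl⟩
    have h1 : 2 ^ Nat.log 2 Q ≤ Q := Nat.pow_log_le_self 2 h
    rw [← hP] at h1 ⊢
    have h2 := Nat.div_add_mod (Q - P) (P / R + 1)
    have h3 : (Q - P) % (P / R + 1) < P / R + 1 := Nat.mod_lt _ (Nat.succ_pos _)
    have h4 : P / R ≤ (P + (P / R + 1) * ((Q - P) / (P / R + 1))) / R := Nat.div_le_div_right (Nat.le_add_right _ _)
    omega
  calc ((Q - gn R Q : ℕ) : ℝ) ≤ ((gn R Q / R : ℕ) : ℝ) := by exact_mod_cast h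
    _ ≤ _ := Nat.cast_div_le

/-- the sum of `1 / q` over `(g, Q]` -/
lemma sum_inv_near (R Q : ℕ) (hR : 1 ≤ R) : ∑ q ∈ Ioc (gn R Q) Q, 1 / (q : ℝ) ≤ 1 / R := by
  have hR0 : (0 : ℝ) < R := by exact_mod_cast hR
  rcases Nat.eq_zero_or_pos (gn R Q) with h0 | h0
  · have h1 := gn_near R Q hR
    rw [h0] at h1 ⊢
    simp only [Nat.sub_zero, Nat.cast_zero, zero_div] at h1
    have h2 : Q = 0 := by
      have : (Q : ℝ) ≤ 0 := h1
      exact_mod_cast le_antisymm this (Nat.cast_nonneg _)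
    subst h2
    simp
  have hg : (0 : ℝ) < gn R Q := by exact_mod_cast h0
  calc ∑ q ∈ Ioc (gn R Q) Q, 1 / (q : ℝ) ≤ ∑ q ∈ Ioc (gn R Q) Q, 1 / (gn R Q : ℝ) := by
        apply sum_le_sum
        intro q hq
        rw [mem_Ioc] at hq
        exact one_div_le_one_div_of_le hg (by exact_mod_cast hq.1.le)
    _ = ((Q - gn R Q : ℕ) : ℝ) * (1 / (gn R Q : ℝ)) := by rw [sum_const, Nat.card_Ioc, nsmul_eq_mul]
    _ ≤ (gn R Q : ℝ) / R * (1 / (gn R Q : ℝ)) := mul_le_mul_of_nonneg_right (gn_near R Q hR) (by positivity)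
    _ = 1 / R := by field_simp

end Pool.Agent.TH212.EH
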