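import Pool.Agent.W93.LV5
import Pool.Agent.H560R3.GB.LamE

set_option autoImplicit false

/-! Level of distribution along thin families: first moments of correlations. -/

namespace Pool.Agent.TH212.EH
open Finset
open Pool.Agent.H373R2.T7 (lamI lamzI energy ev_L' Vz_inv_small lamz lamz_nonneg lamI_nonneg lamzI_nonneg)
open Pool.Agent.W93.AU (dI)

/-- The additive energy of order `h` of a finite family of integers. -/
noncomputable def En (h : ℕ) {ι : Type} [Fintype ι] (v : ι → ℤ) : ℕ :=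
  Nat.card {q : (Fin h → ι) × (Fin h → ι) // ∑ j, v (q.1 j) = ∑ j, v (q.2 j)}

/-- enumeration of a finite type -/
lemma enum (ι : Type) [Fintype ι] [Nonempty ι] : ∃ f : ℕ → ι,
    Set.InjOn f (Icc 1 (Fintype.card ι) : Finset ℕ) ∧ ∀ i, ∃ m ∈ Icc 1 (Fintype.card ι), f m = i := by
  classical
  obtain ⟨i₀⟩ := ‹Nonempty ι›
  let e := (Fintype.equivFin ι)
  refine ⟨fun m => if h : m - 1 < Fintype.card ι then e.symm ⟨m - 1, h⟩ else i₀, ?_, ?_⟩
  · intro m hm m' hm' h
    rw [coe_Icc, Set.mem_Icc] at hm hm'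
    have h1 : m - 1 < Fintype.card ι := by omega
    have h2 : m' - 1 < Fintype.card ι := by omega
    simp only [h1, h2, dif_pos] at h
    have h3 := e.symm.injective h
    rw [Fin.mk.injEq] at h3
    omega
  · intro i
    refine ⟨(e i : ℕ) + 1, mem_Icc.2 ⟨by omega, (e i).2⟩, ?_⟩
    have h1 : (e i : ℕ) + 1 - 1 < Fintype.card ι := by simp
    simp only [h1, dif_pos]
    have : (⟨(e i : ℕ) + 1 - 1, h1⟩ : Fin (Fintype.card ι)) = e i := by
      apply Fin.ext
      simp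
    rw [this, Equiv.symm_apply_apply]

lemma sum_enum {ι : Type} [Fintype ι] (f : ℕ → ι) (hinj : Set.InjOn f (Icc 1 (Fintype.card ι) : Finset ℕ))
    (hsurj : ∀ i, ∃ m ∈ Icc 1 (Fintype.card ι), f m = i) (F : ι → ℝ) :
    ∑ m ∈ Icc 1 (Fintype.card ι), F (f m) = ∑ i, F i := by
  apply sum_bij (fun m _ => f m)
  · intro m _; exact mem_univ _
  · intro m hm m' hm' h; exact hinj (by exact_mod_cast hm) (by exact_mod_cast hm') h
  · intro i _
    obtain ⟨m, hm, h⟩ := hsurj i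
    exact ⟨m, hm, h⟩
  · intro m _; rfl

lemma energy_enum {ι : Type} [Fintype ι] (h : ℕ) (v : ι → ℤ) (f : ℕ → ι) (c : ℤ)
    (hinj : Set.InjOn f (Icc 1 (Fintype.card ι) : Finset ℕ)) :
    energy h (Fintype.card ι) (fun m => v (f m) - c) ≤ En h v := by
  classical
  unfold energy En
  rw [Nat.card_eq_fintype_card, Fintype.card_subtype]
  apply card_le_card_of_injOn (fun q => (fun j => f (q.1 j), fun j => f (q.2 j)))
  · intro q hq
    rw [mem_coe, mem_filter, mem_product, Fintype.mem_piFinset, Fintype.mem_piFinset] at hq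
    rw [mem_coe, mem_filter]
    refine ⟨mem_univ _, ?_⟩
    have h1 := hq.2
    rw [sum_sub_distrib, sum_sub_distrib] at h1
    exact sub_left_inj.1 h1
  · intro q hq q' hq' h2
    rw [mem_coe, mem_filter, mem_product, Fintype.mem_piFinset, Fintype.mem_piFinset] at hq hq'
    simp only [Prod.mk.injEq] at h2
    apply Prod.ext
    · funext j
      exact hinj (by exact_mod_cast hq.1.1 j) (by exact_mod_cast hq'.1.1 j) (congrFun h2.1 j)
    · funext j
      exact hinj (by exact_mod_cast hq.1.2 j) (by exact_mod_cast hq'.1.2 j) (congrFun h2.2 j)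

/-- the two sums -/
noncomputable def S1 (G : ℕ → ℝ) (z A : ℕ) (v : ℤ) : ℝ := ∑ n ∈ Icc 1 A, G n * dI z ((n : ℤ) + v)

noncomputable def S2 (G : ℕ → ℝ) (z A : ℕ) (v : ℤ) : ℝ := ∑ n ∈ Icc 1 A, G n * dI z (v - (n : ℤ))

lemma real_norm (G : ℕ → ℝ) (s : Finset ℕ) (F : ℕ → ℝ) :
    ‖∑ a ∈ s, ((G a : ℝ) : ℂ) * ((F a : ℝ) : ℂ)‖ = |∑ a ∈ s, G a * F a| := by
  rw [← Real.norm_eq_abs, ← Complex.norm_real]
  push_cast
  rfl

lemma reflect (G : ℕ → ℝ) (z A : ℕ) (v : ℤ) :
    ∑ a ∈ Icc 1 A, G (A + 1 - a) * dI z ((a : ℤ) + (v - ((A + 1 : ℕ) : ℤ))) = S2 G z A v := by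
  unfold S2
  apply sum_bij (fun a _ => A + 1 - a)
  · intro a ha
    rw [mem_Icc] at ha ⊢
    omega
  · intro a ha b hb h
    rw [mem_Icc] at ha hb
    omega
  · intro b hb
    rw [mem_Icc] at hb
    exact ⟨A + 1 - b, mem_Icc.2 ⟨by omega, by omega⟩, by omega⟩
  · intro a ha
    rw [mem_Icc] at ha
    congr 2
    rw [Nat.cast_sub (by omega)]
    ring

/-- first moments for a fixed length -/
theorem base (p B C U : ℕ) : ∃ B0 : ℕ, ∀ E : ℕ, ∃ N0 : ℕ, ∀ N : ℕ, N0 ≤ N → ∀ (ι : Type) [Fintype ι] (v : ι → ℤ),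
    (∀ i, |v i| ≤ B * N) → (En p v : ℝ) * N ≤ Real.log N ^ C * (Fintype.card ι : ℝ) ^ (2 * p) →
    ∀ z : ℕ, Real.log N ^ B0 ≤ z → (z : ℝ) ≤ Real.log N ^ E → ∀ A : ℕ, A ≤ B * N →
    ∀ G : ℕ → ℝ, (∀ n, |G n| ≤ 1) →
    ∑ i, |S1 G z A (v i)| ≤ N * Fintype.card ι / Real.log N ^ U ∧
    ∑ i, |S2 G z A (v i)| ≤ N * Fintype.card ι / Real.log N ^ U := by
  classical
  obtain ⟨B0, h0⟩ := Pool.Agent.H560R3.GB.lam_e p (2 * B + 1) C U
  refine ⟨B0, fun E => ?_⟩
  obtain ⟨N0, h1⟩ := h0 E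
  refine ⟨N0 + 1, fun N hN ι _ v hv hE z hz1 hz2 A hA G hG => ?_⟩
  have key : ∀ c : ℤ, |c| ≤ (B + 1) * N → ∀ G' : ℕ → ℝ, (∀ n, |G' n| ≤ 1) →
      ∑ i, |∑ a ∈ Icc 1 A, G' a * dI z ((a : ℤ) + (v i - c))| ≤ N * Fintype.card ι / Real.log N ^ U := by
    intro c hc G' hG'
    rcases isEmpty_or_nonempty ι with hι | hι
    · simp
    obtain ⟨f, hinj, hsurj⟩ := enum ι
    have h2 := h1 N (by omega) (Fintype.card ι) (fun m => v (f m) - c) (by
      intro m _
      have q1 := abs_sub (v (f m)) c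
      have q2 := hv (f m)
      push_cast
      linarith) (by
      refine le_trans ?_ hE
      apply mul_le_mul_of_nonneg_right _ (Nat.cast_nonneg _)
      exact_mod_cast energy_enum p v f c hinj) A (by
      refine hA.trans (Nat.mul_le_mul_right _ (by omega))) z hz1 hz2 (fun n => ((G' n : ℝ) : ℂ)) (by
      intro n
      rw [Complex.norm_real, Real.norm_eq_abs]
      exact hG' n)
    rw [← sum_enum f hinj hsurj]
    refine le_trans (le_of_eq (sum_congr rfl fun m _ => ?_)) h2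
    exact (real_norm G' (Icc 1 A) (fun a => dI z ((a : ℤ) + (v (f m) - c)))).symm
  constructor
  · have h3 := key 0 (by rw [abs_zero]; positivity) G hG
    simp only [sub_zero] at h3
    exact h3
  · have h3 := key ((A + 1 : ℕ) : ℤ) (by
      rw [abs_of_nonneg (by positivity)]
      have q1 : ((A : ℕ) : ℤ) ≤ B * N := by exact_mod_cast hA
      have q2 : (1 : ℤ) ≤ N := by exact_mod_cast (by omega : 1 ≤ N)
      push_cast
      linarith) (fun a => G (A + 1 - a)) (fun n => hG _)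
    simp only [reflect] at h3
    exact h3

end Pool.Agent.TH212.EH
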