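import Pool.Agent.TH212.EH.A1

set_option autoImplicit false

/-! Maximal versions of the first moments. -/

namespace Pool.Agent.TH212.EH
open Finset
open Pool.Agent.H373R2.T7 (lamI lamzI energy ev_L' Vz Vz_inv_small lamz lamz_nonneg lamI_nonneg lamzI_nonneg)
open Pool.Agent.W93.AU (dI)

/-- from a net to all parameters -/
lemma net_sum {ι : Type} [Fintype ι] (S : ℕ → ι → ℝ) (M : ℕ) (g : ℕ → ℕ) (R : Finset ℕ) (b1 b2 : ℝ)
    (hg : ∀ A ≤ M, g A ≤ A ∧ g A ∈ R) (h1 : ∀ A ≤ M, ∑ i, |S A i| ≤ b1)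
    (h2 : ∀ i, ∀ A ≤ M, |S A i| ≤ |S (g A) i| + b2) (A : ι → ℕ) (hA : ∀ i, A i ≤ M) :
    ∑ i, |S (A i) i| ≤ R.card * b1 + Fintype.card ι * b2 := by
  classical
  have hb1 : 0 ≤ b1 := (sum_nonneg fun i _ => abs_nonneg _).trans (h1 0 (Nat.zero_le _))
  have h3 : ∀ i, |S (A i) i| ≤ ∑ r ∈ R.filter (fun r => r ≤ M), |S r i| + b2 := by
    intro i
    refine (h2 i _ (hA i)).trans (add_le_add ?_ le_rfl)
    obtain ⟨q1, q2⟩ := hg _ (hA i)
    exact single_le_sum (f := fun r => |S r i|) (fun r _ => abs_nonneg _)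
      (mem_filter.2 ⟨q2, q1.trans (hA i)⟩)
  refine (sum_le_sum fun i _ => h3 i).trans ?_
  rw [sum_add_distrib, sum_comm, sum_const, card_univ, nsmul_eq_mul]
  refine add_le_add ?_ le_rfl
  calc ∑ r ∈ R.filter (fun r => r ≤ M), ∑ i, |S r i| ≤ ∑ r ∈ R.filter (fun r => r ≤ M), b1 :=
        sum_le_sum fun r hr => h1 r (mem_filter.1 hr).2
    _ = (R.filter (fun r => r ≤ M)).card * b1 := by rw [sum_const, nsmul_eq_mul]
    _ ≤ R.card * b1 := by
        apply mul_le_mul_of_nonneg_right _ hb1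
        exact_mod_cast card_le_card (filter_subset _ _)

lemma dI_le (z X : ℕ) (Lx : ℝ) (hLx : Real.log X = Lx) (hV : (Vz z)⁻¹ ≤ Lx) (m : ℤ) (hm : m ≤ X) :
    |dI z m| ≤ Lx := by
  have hL0 : 0 ≤ Lx := by rw [← hLx]; exact Real.log_natCast_nonneg X
  unfold Pool.Agent.W93.AU.dI lamI lamzI
  split_ifs with h
  · have h1 : (0 : ℝ) ≤ ArithmeticFunction.vonMangoldt m.toNat := ArithmeticFunction.vonMangoldt_nonneg
    have h2 : ArithmeticFunction.vonMangoldt m.toNat ≤ Lx := by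
      refine ArithmeticFunction.vonMangoldt_le_log.trans ?_
      rw [← hLx]
      apply Real.log_le_log
      · exact_mod_cast (by omega : 0 < m.toNat)
      · exact_mod_cast (by omega : m.toNat ≤ X)
    have h3 := lamz_nonneg z m.toNat
    have h4 : lamz z m.toNat ≤ Lx := by
      unfold lamz
      split_ifs
      · exact hV
      · exact hL0
    rw [abs_le]
    constructor <;> linarith
  · rw [sub_zero, abs_zero]
    exact hL0

lemma sum_Icc_sub (F : ℕ → ℝ) (A' A : ℕ) (h : A' ≤ A) :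
    ∑ n ∈ Icc 1 A, F n = ∑ n ∈ Icc 1 A', F n + ∑ n ∈ Ioc A' A, F n := by
  have h1 : Icc 1 A = Icc 1 A' ∪ Ioc A' A := by
    ext n
    simp only [mem_Icc, mem_union, mem_Ioc]
    omega
  rw [h1, sum_union]
  rw [disjoint_left]
  intro n h1 h2
  rw [mem_Icc] at h1
  rw [mem_Ioc] at h2
  omega

lemma step (F : ℕ → ℝ) (A' A : ℕ) (h : A' ≤ A) (b : ℝ) (hb : ∀ n ∈ Ioc A' A, |F n| ≤ b) :
    |∑ n ∈ Icc 1 A, F n| ≤ |∑ n ∈ Icc 1 A', F n| + ((A - A' : ℕ) : ℝ) * b := by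
  rw [sum_Icc_sub F A' A h]
  refine (abs_add_le _ _).trans (add_le_add le_rfl ?_)
  refine (abs_sum_le_sum_abs _ _).trans ?_
  refine (sum_le_sum hb).trans ?_
  rw [sum_const, Nat.card_Ioc, nsmul_eq_mul]

/-- numerical facts about a large number -/
lemma large (K : ℝ) (X0 : ℕ) : ∃ N0 : ℕ, ∀ N : ℕ, N0 ≤ N → X0 ≤ N ∧ K ≤ Real.log N ∧ 1 ≤ Real.log N := by
  obtain ⟨n1, h1⟩ := ev_L' (max K 1)
  refine ⟨max X0 n1, fun N hN => ?_⟩
  have h2 := h1 N ((le_max_right _ _).trans hN)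
  exact ⟨(le_max_left _ _).trans hN, (le_max_left _ _).trans h2, (le_max_right _ _).trans h2⟩

/-- maximal first moments -/
theorem maxi (p B C T U : ℕ) : ∃ B0 : ℕ, ∀ E : ℕ, ∃ N0 : ℕ, ∀ N : ℕ, N0 ≤ N → ∀ (ι : Type) [Fintype ι] (v : ι → ℤ),
    (∀ i, |v i| ≤ B * N) → (En p v : ℝ) * N ≤ Real.log N ^ C * (Fintype.card ι : ℝ) ^ (2 * p) →
    ∀ z : ℕ, Real.log N ^ B0 ≤ z → (z : ℝ) ≤ Real.log N ^ E →
    ∀ G : ℕ → ℝ, (∀ n, |G n| ≤ Real.log N ^ T) → ∀ A : ι → ℕ, (∀ i, A i ≤ B * N) →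
    ∑ i, |S1 G z (A i) (v i)| ≤ N * Fintype.card ι / Real.log N ^ U ∧
    ∑ i, |S2 G z (A i) (v i)| ≤ N * Fintype.card ι / Real.log N ^ U := by
  classical
  obtain ⟨k, hk⟩ : ∃ k, k = T + U + 3 := ⟨_, rfl⟩
  obtain ⟨U', hU'⟩ : ∃ U', U' = T + k + U + 2 := ⟨_, rfl⟩
  obtain ⟨B0, h0⟩ := base p B C U'
  refine ⟨B0, fun E => ?_⟩
  obtain ⟨n0, h0⟩ := h0 E
  obtain ⟨n1, h1⟩ := Vz_inv_small E
  obtain ⟨n2, h2⟩ := large (max (B + 2) (Real.log (2 * B + 1))) (n0 + n1 + 3)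
  refine ⟨n2, fun N hN ι _ v hv hE z hz1 hz2 G hG A hA => ?_⟩
  obtain ⟨hN1, hLK, hL1⟩ := h2 N hN
  obtain ⟨L, hL⟩ : ∃ L, L = Real.log (N : ℝ) := ⟨_, rfl⟩
  have c0 := h0 N (by omega) ι v hv hE z hz1 hz2
  rw [← hL] at hLK hL1 hG c0 hE hz1 hz2 ⊢
  have hLB : (B : ℝ) + 2 ≤ L := (le_max_left _ _).trans hLK
  have hLl : Real.log (2 * B + 1) ≤ L := (le_max_right _ _).trans hLK
  have hL0 : 0 < L := by linarith
  have hB0 : (0 : ℝ) ≤ B := Nat.cast_nonneg _
  have hL2 : 2 ≤ L := by linarith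
  have hN0 : (0 : ℝ) < N := by exact_mod_cast (by omega : 0 < N)
  obtain ⟨X, hX⟩ : ∃ X : ℕ, X = (2 * B + 1) * N := ⟨_, rfl⟩
  obtain ⟨Lx, hLx⟩ : ∃ Lx, Lx = Real.log (X : ℝ) := ⟨_, rfl⟩
  have hLx2 : Lx ≤ 2 * L := by
    rw [hLx, hX]
    push_cast
    rw [Real.log_mul (by positivity) hN0.ne', ← hL]
    linarith
  have hLx1 : L ≤ Lx := by
    rw [hLx, hL]
    apply Real.log_le_log hN0
    exact_mod_cast (by rw [hX]; exact Nat.le_mul_of_pos_left _ (by omega) : N ≤ X)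
  have hz : 1 ≤ z := by
    have : (1 : ℝ) ≤ z := (one_le_pow₀ hL1).trans hz1
    exact_mod_cast this
  have hV : (Vz z)⁻¹ ≤ Lx := (h1 N (by omega) z hz (by rw [← hL]; exact hz2)).trans (by rw [← hL]; exact hLx1)
  have hLT : 0 < L ^ T := by positivity
  -- normalised function
  obtain ⟨G', hG'⟩ : ∃ G' : ℕ → ℝ, G' = fun n => G n / L ^ T := ⟨_, rfl⟩
  have hG1 : ∀ n, |G' n| ≤ 1 := by
    intro n
    rw [hG']
    simp only
    rw [abs_div, abs_of_pos hLT, div_le_one hLT]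
    exact hG n
  have hGG : ∀ n, G n = L ^ T * G' n := by
    intro n
    rw [hG']
    simp only
    field_simp
  -- the cells
  obtain ⟨D, hD⟩ : ∃ D : ℕ, D = ⌊(N : ℝ) / L ^ k⌋₊ := ⟨_, rfl⟩
  have hD1 : (D : ℝ) ≤ N / L ^ k := by rw [hD]; exact Nat.floor_le (by positivity)
  have hD2 : (N : ℝ) / L ^ k < D + 1 := by rw [hD]; exact Nat.lt_floor_add_one _
  obtain ⟨J, hJ⟩ : ∃ J : ℕ, J = B * N / (D + 1) := ⟨_, rfl⟩
  have hJ1 : (J : ℝ) ≤ B * L ^ k := by
    have q1 : (J : ℝ) ≤ ((B * N : ℕ) : ℝ) / ((D + 1 : ℕ) : ℝ) := by rw [hJ]; exact Nat.cast_div_le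
    refine q1.trans ?_
    push_cast
    rw [div_le_iff₀ (by positivity)]
    rw [div_lt_iff₀ (by positivity)] at hD2
    nlinarith
  obtain ⟨g, hg⟩ : ∃ g : ℕ → ℕ, g = fun A => (D + 1) * (A / (D + 1)) := ⟨_, rfl⟩
  obtain ⟨R, hR⟩ : ∃ R : Finset ℕ, R = (range (J + 1)).image (fun j => (D + 1) * j) := ⟨_, rfl⟩
  have hRc : (R.card : ℝ) ≤ L ^ (k + 1) := by
    have q1 : R.card ≤ J + 1 := by
      rw [hR]
      refine card_image_le.trans ?_
      rw [card_range]
    have q2 : (1 : ℝ) ≤ L ^ k := one_le_pow₀ hL1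
    calc (R.card : ℝ) ≤ J + 1 := by exact_mod_cast q1
      _ ≤ B * L ^ k + L ^ k := add_le_add hJ1 q2
      _ = (B + 1) * L ^ k := by ring
      _ ≤ L * L ^ k := mul_le_mul_of_nonneg_right (by linarith) (by positivity)
      _ = L ^ (k + 1) := by ring
  have hgR : ∀ A ≤ B * N, g A ≤ A ∧ g A ∈ R := by
    intro A hA
    rw [hg, hR]
    refine ⟨Nat.mul_div_le _ _, mem_image.2 ⟨A / (D + 1), ?_, rfl⟩⟩
    rw [mem_range, hJ]
    exact Nat.lt_succ_of_le (Nat.div_le_div_right hA)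
  have hgD : ∀ A, A - g A ≤ D := by
    intro A
    rw [hg]
    simp only
    have q1 := Nat.div_add_mod A (D + 1)
    have q2 := Nat.mod_lt A (by omega : D + 1 > 0)
    omega
  have hsum : ∀ S : ℕ → ι → ℝ, (∀ A ≤ B * N, ∑ i, |S A i| ≤ N * Fintype.card ι / L ^ U') →
      (∀ i, ∀ A ≤ B * N, |S A i| ≤ |S (g A) i| + ((A - g A : ℕ) : ℝ) * Lx) →
      ∑ i, |S (A i) i| ≤ N * Fintype.card ι / L ^ (U + T) := by
    intro S hS1 hS2
    have q1 := net_sum S (B * N) g R _ (N / L ^ k * (2 * L)) hgR hS1 (by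
      intro i A hA
      refine (hS2 i A hA).trans (add_le_add le_rfl ?_)
      apply mul_le_mul _ hLx2 (by linarith) (by positivity)
      refine le_trans ?_ hD1
      exact_mod_cast hgD A) A hA
    refine q1.trans ?_
    have q2 : (R.card : ℝ) * (N * Fintype.card ι / L ^ U') ≤ L ^ (k + 1) * (N * Fintype.card ι / L ^ U') :=
      mul_le_mul_of_nonneg_right hRc (by positivity)
    have q3 : L ^ (k + 1) * (N * Fintype.card ι / L ^ U') = N * Fintype.card ι / L ^ (U + T) * (1 / L) := by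
      rw [hU', show T + k + U + 2 = (U + T) + (k + 1) + 1 by ring, pow_succ L ((U + T) + (k + 1)), pow_add L (U + T)]
      field_simp
    have q4 : (Fintype.card ι : ℝ) * (N / L ^ k * (2 * L)) = N * Fintype.card ι / L ^ (U + T) * (2 / L ^ 2) := by
      rw [hk, show T + U + 3 = (U + T) + 3 by ring, pow_add]
      field_simp
    rw [q4]
    rw [q3] at q2
    have q5 : 1 / L + 2 / L ^ 2 ≤ 1 := by
      rw [div_add_div _ _ hL0.ne' (by positivity), div_le_one (by positivity)]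
      nlinarith [mul_nonneg (sub_nonneg.2 hL2) (sub_nonneg.2 hL2), mul_pos hL0 hL0, mul_nonneg hL0.le (mul_nonneg (sub_nonneg.2 hL2) hL0.le)]
    have q6 : 0 ≤ (N : ℝ) * Fintype.card ι / L ^ (U + T) := by positivity
    calc _ ≤ N * Fintype.card ι / L ^ (U + T) * (1 / L) + N * Fintype.card ι / L ^ (U + T) * (2 / L ^ 2) := add_le_add q2 le_rfl
      _ = N * Fintype.card ι / L ^ (U + T) * (1 / L + 2 / L ^ 2) := by ring
      _ ≤ _ := mul_le_of_le_one_right q6 q5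
  have hscale : ∀ x : ℝ, x ≤ N * Fintype.card ι / L ^ (U + T) → L ^ T * x ≤ N * Fintype.card ι / L ^ U := by
    intro x hx
    calc L ^ T * x ≤ L ^ T * (N * Fintype.card ι / L ^ (U + T)) := mul_le_mul_of_nonneg_left hx hLT.le
      _ = _ := by rw [pow_add]; field_simp
  have hbd : ∀ n, |G' n| ≤ 1 := hG1
  constructor
  · have e1 : ∀ i, |S1 G z (A i) (v i)| = L ^ T * |S1 G' z (A i) (v i)| := by
      intro i
      have e0 : S1 G z (A i) (v i) = L ^ T * S1 G' z (A i) (v i) := by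
        unfold S1
        rw [mul_sum]
        apply sum_congr rfl
        intro n _
        rw [hGG n]
        ring
      rw [e0, abs_mul, abs_of_pos hLT]
    simp only [e1]
    rw [← mul_sum]
    apply hscale
    apply hsum (fun A i => S1 G' z A (v i))
    · intro A hA
      exact (c0 A hA G' hG1).1
    · intro i A hA
      unfold S1
      apply step _ _ _ (hgR A hA).1
      intro n hn
      rw [mem_Ioc] at hn
      rw [abs_mul]
      calc |G' n| * |dI z ((n : ℤ) + v i)| ≤ 1 * Lx := by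
            apply mul_le_mul (hG1 n) _ (abs_nonneg _) zero_le_one
            apply dI_le z X Lx hLx.symm hV
            have q1 := (abs_le.1 (hv i)).2
            have q2 : (n : ℤ) ≤ B * N := by exact_mod_cast hn.2.trans hA
            rw [hX]
            push_cast
            nlinarith
        _ = Lx := one_mul _
  · have e1 : ∀ i, |S2 G z (A i) (v i)| = L ^ T * |S2 G' z (A i) (v i)| := by
      intro i
      have e0 : S2 G z (A i) (v i) = L ^ T * S2 G' z (A i) (v i) := by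
        unfold S2
        rw [mul_sum]
        apply sum_congr rfl
        intro n _
        rw [hGG n]
        ring
      rw [e0, abs_mul, abs_of_pos hLT]
    simp only [e1]
    rw [← mul_sum]
    apply hscale
    apply hsum (fun A i => S2 G' z A (v i))
    · intro A hA
      exact (c0 A hA G' hG1).2
    · intro i A hA
      unfold S2
      apply step _ _ _ (hgR A hA).1
      intro n hn
      rw [mem_Ioc] at hn
      rw [abs_mul]
      calc |G' n| * |dI z (v i - (n : ℤ))| ≤ 1 * Lx := by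
            apply mul_le_mul (hG1 n) _ (abs_nonneg _) zero_le_one
            apply dI_le z X Lx hLx.symm hV
            have q1 := (abs_le.1 (hv i)).2
            have q2 : (0 : ℤ) ≤ n := by positivity
            have q3 : (0 : ℤ) ≤ B * N := by positivity
            rw [hX]
            push_cast
            nlinarith
        _ = Lx := one_mul _

end Pool.Agent.TH212.EH
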