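import Pool.Agent.TH212.EH.A2

set_option autoImplicit false

/-! The weighted discrepancies along a thin family, for a fixed number of moduli. -/

namespace Pool.Agent.TH212.EH
open Finset
open Pool.Agent.H373R2.T7 (lamI lamzI energy ev_L' Vz Vz_inv_small lamz lamz_nonneg lamI_nonneg lamzI_nonneg)
open Pool.Agent.W93.AU (dI)
open Pool.Agent.W93.LV

/-- the number of prime factors allowed in the sieve -/
lemma choice2 (E U : ℕ) : ∃ K : ℕ, ∀ L : ℝ, Real.exp 1 ≤ L → ∀ z : ℕ, 1 ≤ z → (z : ℝ) ≤ L ^ E →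
    ∃ r : ℕ, Real.exp (3 * (1 + Real.log z) - r) ≤ 1 / L ^ U ∧ ((z : ℝ) + 1) ^ r ≤ Real.exp (K * Real.log L ^ 2) := by
  refine ⟨(4 + 3 * E + U) * (E + 1), fun L hL z hz hzL => ?_⟩
  have hL2 : (2 : ℝ) ≤ L := by linarith [Real.exp_one_gt_d9]
  have hL0 : 0 < L := by linarith
  obtain ⟨l, hl⟩ : ∃ l, l = Real.log L := ⟨_, rfl⟩
  have hl1 : 1 ≤ l := by
    rw [hl, Real.le_log_iff_exp_le hL0]
    exact hL
  have hLl : L = Real.exp l := by rw [hl, Real.exp_log hL0]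
  have hz0 : (0 : ℝ) < z := by exact_mod_cast hz
  have hlz : Real.log z ≤ E * l := by
    have h := Real.log_le_log hz0 hzL
    rw [Real.log_pow, ← hl] at h
    exact h
  obtain ⟨r, hr⟩ : ∃ r : ℕ, r = ⌈3 * (1 + E * l) + U * l⌉₊ := ⟨_, rfl⟩
  have hr1 : 3 * (1 + E * l) + U * l ≤ r := by rw [hr]; exact Nat.le_ceil _
  have hr2 : (r : ℝ) ≤ (4 + 3 * E + U) * l := by
    have h1 : (r : ℝ) < 3 * (1 + E * l) + U * l + 1 := by
      rw [hr]
      exact Nat.ceil_lt_add_one (by positivity)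
    nlinarith
  refine ⟨r, ?_, ?_⟩
  · have e : 1 / L ^ U = Real.exp (-(U * l)) := by
      rw [Real.exp_neg, Real.exp_nat_mul, ← hLl, one_div]
    rw [e]
    apply Real.exp_le_exp.2
    linarith
  · have hz1 : (z : ℝ) + 1 ≤ Real.exp ((E + 1 : ℕ) * l) := by
      have h1 : (1 : ℝ) ≤ L ^ E := one_le_pow₀ (by linarith)
      rw [Real.exp_nat_mul, ← hLl]
      calc (z : ℝ) + 1 ≤ L ^ E + L ^ E := add_le_add hzL h1
        _ = 2 * L ^ E := by ring
        _ ≤ L * L ^ E := mul_le_mul_of_nonneg_right hL2 (by positivity)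
        _ = L ^ (E + 1) := by ring
    calc ((z : ℝ) + 1) ^ r ≤ (Real.exp ((E + 1 : ℕ) * l)) ^ r := pow_le_pow_left₀ (by positivity) hz1 r
      _ = Real.exp (r * (((E + 1 : ℕ) : ℝ) * l)) := by rw [← Real.exp_nat_mul]
      _ ≤ Real.exp ((((4 + 3 * E + U) * (E + 1) : ℕ) : ℝ) * Real.log L ^ 2) := by
          apply Real.exp_le_exp.2
          rw [← hl]
          push_cast
          have h3 : (0 : ℝ) ≤ ((E : ℝ) + 1) * l := by positivity
          calc (r : ℝ) * (((E : ℝ) + 1) * l) ≤ ((4 + 3 * E + U) * l) * (((E : ℝ) + 1) * l) :=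
                mul_le_mul_of_nonneg_right hr2 h3
            _ = _ := by ring

/-- `N / exp (K (log log N) ^ 2)` -/
noncomputable def level (K N : ℕ) : ℝ := N / Real.exp (K * Real.log (Real.log N) ^ 2)

/-- the weighted discrepancy -/
noncomputable def W (lam : ℕ → ℝ) (Q y a : ℕ) : ℝ :=
  ∑ q ∈ (Icc 1 Q).filter (fun q => a.Coprime q),
    lam q * (Fu (fun n => ArithmeticFunction.vonMangoldt n) y q a - (y : ℝ) / Nat.totient q)

lemma level_mul (K K0 m N : ℕ) (hK : K = K0 + 4 + m) (hN : Real.exp 1 ≤ Real.log N) (Q : ℕ) (hQ : (Q : ℝ) ≤ level K N)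
    (W : ℝ) (hW : W ≤ Real.exp (K0 * Real.log (Real.log N) ^ 2)) : 54 * Real.log N ^ m * (Q * W) ≤ N := by
  obtain ⟨L, hL⟩ : ∃ L, L = Real.log (N : ℝ) := ⟨_, rfl⟩
  unfold level at hQ
  rw [← hL] at hN hQ hW ⊢
  have hL0 : 0 < L := lt_of_lt_of_le (Real.exp_pos 1) hN
  obtain ⟨l, hl⟩ : ∃ l, l = Real.log L := ⟨_, rfl⟩
  have hl1 : 1 ≤ l := by
    rw [hl, Real.le_log_iff_exp_le hL0]
    exact hN
  have hLl : L = Real.exp l := by rw [hl, Real.exp_log hL0]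
  rw [← hl] at hQ hW
  have hll : l ≤ l ^ 2 := by nlinarith
  have hl2 : 1 ≤ l ^ 2 := by nlinarith
  have h54 : (54 : ℝ) ≤ Real.exp (4 * l ^ 2) := by
    have h1 : (54 : ℝ) ≤ Real.exp 4 := by
      have h2 : Real.exp 4 = Real.exp 1 ^ 4 := by rw [← Real.exp_nat_mul]; norm_num
      rw [h2]
      have h3 := Real.exp_one_gt_d9
      calc (54 : ℝ) ≤ (2.7182818283 : ℝ) ^ 4 := by norm_num
        _ ≤ _ := pow_le_pow_left₀ (by norm_num) h3.le 4
    exact h1.trans (Real.exp_le_exp.2 (by linarith))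
  have hLm : L ^ m ≤ Real.exp (m * l ^ 2) := by
    rw [hLl, ← Real.exp_nat_mul]
    exact Real.exp_le_exp.2 (mul_le_mul_of_nonneg_left hll (Nat.cast_nonneg _))
  have hN0 : (0 : ℝ) ≤ N := Nat.cast_nonneg _
  calc 54 * L ^ m * (Q * W) ≤ Real.exp (4 * l ^ 2) * Real.exp (m * l ^ 2) *
        (N / Real.exp (K * l ^ 2) * Real.exp (K0 * l ^ 2)) := by
        have h1 : (Q : ℝ) * W ≤ N / Real.exp (K * l ^ 2) * Real.exp (K0 * l ^ 2) := by
          calc (Q : ℝ) * W ≤ Q * Real.exp (K0 * l ^ 2) := mul_le_mul_of_nonneg_left hW (Nat.cast_nonneg _)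
            _ ≤ _ := mul_le_mul_of_nonneg_right hQ (Real.exp_pos _).le
        have h2 : 54 * L ^ m ≤ Real.exp (4 * l ^ 2) * Real.exp (m * l ^ 2) :=
          mul_le_mul h54 hLm (by positivity) (Real.exp_pos _).le
        calc 54 * L ^ m * (Q * W) ≤ 54 * L ^ m * (N / Real.exp (K * l ^ 2) * Real.exp (K0 * l ^ 2)) :=
              mul_le_mul_of_nonneg_left h1 (by positivity)
          _ ≤ _ := mul_le_mul_of_nonneg_right h2 (by positivity)
    _ = N := by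
        have e : Real.exp (K * l ^ 2) = Real.exp (4 * l ^ 2) * Real.exp (m * l ^ 2) * Real.exp (K0 * l ^ 2) := by
          rw [← Real.exp_add, ← Real.exp_add, hK]
          congr 1
          push_cast
          ring
        rw [e]
        field_simp

open Classical in
/-- first moments of the weighted discrepancies, for a fixed `Q` -/
theorem fixQ (p B C T U : ℕ) : ∃ K N0 : ℕ, ∀ N : ℕ, N0 ≤ N → ∀ (ι : Type) [Fintype ι] (v : ι → ℤ),
    (∀ i, |v i| ≤ B * N) → (En p v : ℝ) * N ≤ Real.log N ^ C * (Fintype.card ι : ℝ) ^ (2 * p) →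
    ∀ lam : ℕ → ℝ, (∀ q, |lam q| ≤ Real.log N ^ T) → ∀ Q : ℕ, (Q : ℝ) ≤ level K N →
    ∀ y : ι → ℕ, (∀ i, y i ≤ B * N) →
    ∑ i ∈ univ.filter (fun i => 0 < v i), |W lam Q (y i) (v i).toNat| ≤ N * Fintype.card ι / Real.log N ^ U := by
  obtain ⟨V, hVV⟩ : ∃ V, V = U + 1 := ⟨_, rfl⟩
  obtain ⟨B0, h0⟩ := maxi p B C (T + (T + V + 5)) (V + 1)
  obtain ⟨E1, hE1⟩ : ∃ E1, E1 = B0 + T + V + 5 := ⟨_, rfl⟩
  obtain ⟨n0, h0⟩ := h0 (E1 + 1)
  obtain ⟨K0, hK0⟩ := choice2 (E1 + 1) (T + V + 3)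
  obtain ⟨n1, h1⟩ := Vz_inv_small (E1 + 1)
  obtain ⟨C0, hC0⟩ : ∃ C0 : ℕ, C0 = B + 1 := ⟨_, rfl⟩
  obtain ⟨n2, h2⟩ := large (4 + 504 * (C0 : ℝ) + Real.log C0) (n0 + n1 + 3)
  obtain ⟨K, hK⟩ : ∃ K, K = K0 + 4 + (T + V + 4) := ⟨_, rfl⟩
  refine ⟨K, n2, fun N hN ι _ v hv hE lam hlam Q hQ y hy => ?_⟩
  obtain ⟨hN1, hLK, hL1⟩ := h2 N hN
  have hN0 : (0 : ℝ) < N := by exact_mod_cast (by omega : 0 < N)
  have hC0r : (1 : ℝ) ≤ C0 := by rw [hC0]; push_cast; linarith [(Nat.cast_nonneg B : (0 : ℝ) ≤ B)]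
  have hlC0 : 0 ≤ Real.log (C0 : ℝ) := Real.log_natCast_nonneg C0
  have hexp : Real.exp 1 ≤ Real.log N := by linarith [Real.exp_one_lt_d9]
  have hQW0 := fun Wr hWr => level_mul K K0 (T + V + 4) N hK hexp Q hQ Wr hWr
  obtain ⟨L, hL⟩ : ∃ L, L = Real.log (N : ℝ) := ⟨_, rfl⟩
  have c0 := h0 N (by omega) ι v hv hE
  rw [← hL] at hLK hL1 hlam c0 hE hexp hQW0 ⊢
  have hL0 : 0 < L := by linarith
  have hbig : 4 + 504 * (C0 : ℝ) ≤ L := by linarith
  -- the level of the model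
  obtain ⟨z, hz⟩ : ∃ z, z = ⌈L ^ E1⌉₊ := ⟨_, rfl⟩
  have hz1 : L ^ E1 ≤ z := by rw [hz]; exact Nat.le_ceil _
  have hz2 : (z : ℝ) ≤ L ^ (E1 + 1) := by
    have q1 : (z : ℝ) < L ^ E1 + 1 := by rw [hz]; exact Nat.ceil_lt_add_one (by positivity)
    have q2 : 1 ≤ L ^ E1 := one_le_pow₀ hL1
    rw [pow_succ]
    nlinarith
  have hzge : 1 ≤ z := by
    have : (1 : ℝ) ≤ z := (one_le_pow₀ hL1).trans hz1
    exact_mod_cast this
  -- the range
  obtain ⟨X, hX⟩ : ∃ X : ℕ, X = C0 * N := ⟨_, rfl⟩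
  have hXN : N ≤ X := by rw [hX]; exact Nat.le_mul_of_pos_left _ (by omega)
  have hBX : B * N ≤ X := by rw [hX, hC0]; exact Nat.mul_le_mul_right _ (by omega)
  obtain ⟨Lx, hLx⟩ : ∃ Lx, Lx = Real.log (X : ℝ) := ⟨_, rfl⟩
  have hLx1 : L ≤ Lx := by
    rw [hL, hLx]
    exact Real.log_le_log hN0 (by exact_mod_cast hXN)
  have hLx2 : Lx ≤ 2 * L := by
    rw [hLx, hX]
    push_cast
    rw [Real.log_mul (by positivity) hN0.ne', ← hL]
    linarith
  have hV : (Vz z)⁻¹ ≤ Lx := (h1 N (by omega) z hzge (by rw [← hL]; exact hz2)).trans (by rw [← hL]; exact hLx1)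
  -- the sieve
  obtain ⟨r, hr1, hr2⟩ := hK0 L hexp z hzge hz2
  obtain ⟨Wr, hWr⟩ : ∃ Wr : ℝ, Wr = ((z : ℝ) + 1) ^ r := ⟨_, rfl⟩
  rw [← hWr] at hr2
  have hW1 : 1 ≤ Wr := by rw [hWr]; exact one_le_pow₀ (by linarith [(Nat.cast_nonneg z : (0 : ℝ) ≤ z)])
  have hQW := hQW0 Wr hr2
  have hQX : Q ≤ X := by
    have q1 : (Q : ℝ) ≤ N := by
      refine hQ.trans ?_
      unfold level
      apply div_le_self hN0.le
      rw [← Real.exp_zero]
      apply Real.exp_le_exp.2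
      positivity
    have q2 : Q ≤ N := by exact_mod_cast q1
    omega
  have hτ : (0 : ℝ) < L ^ (T + V + 5) := by positivity
  obtain ⟨G, hG⟩ : ∃ G, G = DT lam Q (L ^ (T + V + 5)) := ⟨_, rfl⟩
  have hGb : ∀ n, |G n| ≤ L ^ (T + (T + V + 5)) := by
    intro n
    rw [hG]
    refine (DT_le lam Q _ (L ^ T) hτ.le hlam n).trans (le_of_eq ?_)
    rw [← pow_add]
  have key := c0 z ((pow_le_pow_right₀ hL1 (by omega)).trans hz1) hz2 G hGb
  -- for each member of the family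
  obtain ⟨A1, hA1⟩ : ∃ A1 : ι → ℕ, A1 = fun i => y i - (v i).toNat := ⟨_, rfl⟩
  obtain ⟨A2, hA2⟩ : ∃ A2 : ι → ℕ, A2 = fun i => (v i).toNat - 1 := ⟨_, rfl⟩
  obtain ⟨A3, hA3⟩ : ∃ A3 : ι → ℕ, A3 = fun i => (v i).toNat - 1 - y i := ⟨_, rfl⟩
  have hvB : ∀ i, (v i).toNat ≤ B * N := by
    intro i
    have q1 := (abs_le.1 (hv i)).2
    have q2 : (0 : ℤ) ≤ B * N := by positivity
    zify
    rw [Int.toNat_eq_max]
    exact max_le q1 q2
  have hA1B : ∀ i, A1 i ≤ B * N := by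
    intro i
    rw [hA1]
    exact (Nat.sub_le _ _).trans (hy i)
  have hA2B : ∀ i, A2 i ≤ B * N := by
    intro i
    rw [hA2]
    exact (Nat.sub_le _ _).trans (hvB i)
  have hA3B : ∀ i, A3 i ≤ B * N := by
    intro i
    rw [hA3]
    exact ((Nat.sub_le _ _).trans (Nat.sub_le _ _)).trans (hvB i)
  have hone : ∀ i ∈ univ.filter (fun i => 0 < v i), |W lam Q (y i) (v i).toNat| ≤
      |S1 G z (A1 i) (v i)| + (|S2 G z (A2 i) (v i)| + |S2 G z (A3 i) (v i)|) + N / L ^ V := by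
    intro i hi
    rw [mem_filter] at hi
    obtain ⟨a, ha⟩ : ∃ a, a = (v i).toNat := ⟨_, rfl⟩
    have hav : ((a : ℕ) : ℤ) = v i := by rw [ha]; exact Int.toNat_of_nonneg hi.2.le
    have ha1 : 1 ≤ a := by
      have := hi.2
      omega
    have haX : a ≤ X := by rw [ha]; exact (hvB i).trans hBX
    have hyX : y i ≤ X := (hy i).trans hBX
    have d1 := det1 lam Q (y i) a z r X (L ^ T) Lx Lx ha1 hzge haX hyX hQX hlam hV hLx.symm le_rfl (by linarith)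
    have d2 := three lam Q a (y i) z X (L ^ (T + V + 5)) (L ^ T) Lx hτ hlam ha1 haX hyX hLx.symm hV (by linarith)
    rw [← hWr] at d1
    have d3 : 1 + Real.log (X : ℝ) ≤ 2 * Lx := by rw [← hLx]; linarith
    have d4 : Lx * (L ^ T / L ^ (T + V + 5) * (X * (1 + Real.log X) ^ 3)) ≤ Lx * (L ^ T / L ^ (T + V + 5) * (X * (2 * Lx) ^ 3)) := by
      have g0 := log1_nonneg X
      have g1 : 0 ≤ Lx := by linarith
      gcongr
    have d5 := fin_num L Lx N X Q Wr (Real.exp (3 * (1 + Real.log z) - r)) z 0 0 0 C0 T V E1 hL1 (by linarith) hLx2 hN0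
      (by rw [hX]; push_cast; rfl) (by linarith) (Nat.cast_nonneg Q) hW1 (Real.exp_pos _).le hr1 (by exact_mod_cast hzge) hz1
      (by omega) hQW hbig (by positivity) (by positivity) (by positivity)
    rw [hA1, hA2, hA3]
    simp only
    rw [← ha]
    unfold W S1 S2
    rw [hG]
    rw [hav] at d2
    linarith
  refine (sum_le_sum hone).trans ?_
  have hsub : ∀ F : ι → ℝ, (∀ i, 0 ≤ F i) → ∑ i ∈ univ.filter (fun i => 0 < v i), F i ≤ ∑ i, F i := by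
    intro F hF
    exact sum_le_sum_of_subset_of_nonneg (filter_subset _ _) (fun i _ _ => hF i)
  refine (hsub _ (fun i => by positivity)).trans ?_
  rw [sum_add_distrib, sum_add_distrib, sum_add_distrib, sum_const, card_univ, nsmul_eq_mul]
  have k1 := (key A1 hA1B).1
  have k2 := (key A2 hA2B).2
  have k3 := (key A3 hA3B).2
  have e1 : (N : ℝ) * Fintype.card ι / L ^ (V + 1) = N * Fintype.card ι / L ^ U * (1 / L ^ 2) := by
    rw [hVV, show U + 1 + 1 = U + 2 by ring, pow_add]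
    field_simp
  have e2 : (Fintype.card ι : ℝ) * (N / L ^ V) = N * Fintype.card ι / L ^ U * (1 / L) := by
    rw [hVV, pow_succ]
    field_simp
  rw [e1] at k1 k2 k3
  rw [e2]
  have hL4 : 4 ≤ L := by linarith
  have q5 : 3 * (1 / L ^ 2) + 1 / L ≤ 1 := by
    have e3 : 3 * (1 / L ^ 2) + 1 / L = (3 + L) / L ^ 2 := by field_simp
    rw [e3, div_le_one (by positivity)]
    nlinarith
  have q6 : 0 ≤ (N : ℝ) * Fintype.card ι / L ^ U := by positivity
  calc _ ≤ N * Fintype.card ι / L ^ U * (1 / L ^ 2) + (N * Fintype.card ι / L ^ U * (1 / L ^ 2) + N * Fintype.card ι / L ^ U * (1 / L ^ 2)) +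
        N * Fintype.card ι / L ^ U * (1 / L) := by linarith
    _ = N * Fintype.card ι / L ^ U * (3 * (1 / L ^ 2) + 1 / L) := by ring
    _ ≤ _ := mul_le_of_le_one_right q6 q5

end Pool.Agent.TH212.EH
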