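import Pool.Agent.TH212.EH.A3
import Pool.Agent.TH212.EH.A0

set_option autoImplicit false

/-! Uniformity in the number of the moduli; lengths depending on the modulus. -/

namespace Pool.Agent.TH212.EH
open Finset
open Pool.Agent.W93.LV

/-- the weighted discrepancy with lengths depending on the modulus -/
noncomputable def WW (lam : ℕ → ℝ) (y : ℕ → ℕ) (Q a : ℕ) : ℝ :=
  ∑ q ∈ (Icc 1 Q).filter (fun q => a.Coprime q),
    lam q * (Fu (fun n => ArithmeticFunction.vonMangoldt n) (y q) q a - (y q : ℝ) / Nat.totient q)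

lemma Fu_diff (y' y q a : ℕ) (h : y' ≤ y) (X : ℕ) (hX : y ≤ X) :
    |Fu (fun n => ArithmeticFunction.vonMangoldt n) y q a - Fu (fun n => ArithmeticFunction.vonMangoldt n) y' q a| ≤
      (((y - y' : ℕ) : ℝ) / q + 1) * Real.log X := by
  have h1 : (Icc 1 y).filter (fun u => u ≡ a [MOD q]) =
      (Icc 1 y').filter (fun u => u ≡ a [MOD q]) ∪ (Ioc y' y).filter (fun u => u ≡ a [MOD q]) := by
    ext n
    simp only [mem_union, mem_filter, mem_Icc, mem_Ioc]
    constructor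
    · rintro ⟨⟨h1, h2⟩, h3⟩
      rcases le_or_gt n y' with h4 | h4
      · exact Or.inl ⟨⟨h1, h4⟩, h3⟩
      · exact Or.inr ⟨⟨h4, h2⟩, h3⟩
    · rintro (⟨⟨h1, h2⟩, h3⟩ | ⟨⟨h1, h2⟩, h3⟩)
      · exact ⟨⟨h1, h2.trans h⟩, h3⟩
      · exact ⟨⟨by omega, h2⟩, h3⟩
  have h2 : Disjoint ((Icc 1 y').filter (fun u => u ≡ a [MOD q])) ((Ioc y' y).filter (fun u => u ≡ a [MOD q])) := by
    rw [disjoint_left]
    intro n h1 h2
    rw [mem_filter, mem_Icc] at h1
    rw [mem_filter, mem_Ioc] at h2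
    omega
  unfold Fu
  rw [h1, sum_union h2, add_sub_cancel_left]
  refine (abs_sum_le_sum_abs _ _).trans ?_
  calc ∑ n ∈ (Ioc y' y).filter (fun u => u ≡ a [MOD q]), |ArithmeticFunction.vonMangoldt n|
      ≤ ∑ n ∈ (Ioc y' y).filter (fun u => u ≡ a [MOD q]), Real.log X := by
        apply sum_le_sum
        intro n hn
        rw [mem_filter, mem_Ioc] at hn
        rw [abs_of_nonneg ArithmeticFunction.vonMangoldt_nonneg]
        refine ArithmeticFunction.vonMangoldt_le_log.trans ?_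
        apply Real.log_le_log
        · exact_mod_cast (by omega : 0 < n)
        · exact_mod_cast (by omega : n ≤ X)
    _ = (((Ioc y' y).filter (fun u => u ≡ a [MOD q])).card : ℝ) * Real.log X := by rw [sum_const, nsmul_eq_mul]
    _ ≤ _ := mul_le_mul_of_nonneg_right (card_ap y' y q a) (Real.log_natCast_nonneg X)

lemma Fu_zero (q a : ℕ) : Fu (fun n => ArithmeticFunction.vonMangoldt n) 0 q a = 0 := by
  unfold Fu
  simp

lemma Fu_le (y q a X : ℕ) (hX : y ≤ X) :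
    |Fu (fun n => ArithmeticFunction.vonMangoldt n) y q a| ≤ ((y : ℝ) / q + 1) * Real.log X := by
  have h := Fu_diff 0 y q a (Nat.zero_le _) X hX
  rw [Fu_zero, sub_zero, Nat.sub_zero] at h
  exact h

lemma sum_filter_le {F G : ℕ → ℝ} (s : Finset ℕ) (P : ℕ → Prop) [DecidablePred P] (h : ∀ q ∈ s, F q ≤ G q) (hG : ∀ q ∈ s, 0 ≤ G q) :
    ∑ q ∈ s.filter P, F q ≤ ∑ q ∈ s, G q := by
  refine (sum_le_sum fun q hq => h q (mem_filter.1 hq).1).trans ?_
  exact sum_le_sum_of_subset_of_nonneg (filter_subset _ _) (fun q hq _ => hG q hq)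

lemma E_le (q y a X : ℕ) (Lx : ℝ) (hq1 : 1 ≤ q) (hqX : q ≤ X) (hy : y ≤ X) (hLx : Real.log X = Lx) (hLx1 : 1 ≤ Lx) :
    |Fu (fun n => ArithmeticFunction.vonMangoldt n) y q a - (y : ℝ) / Nat.totient q| ≤ 5 * Lx * X * (1 / (q : ℝ)) := by
  have hq0 : (0 : ℝ) < q := by exact_mod_cast hq1
  have hX0 : (0 : ℝ) < X := by exact_mod_cast (by omega : 0 < X)
  have hyX : ((y : ℕ) : ℝ) ≤ X := by exact_mod_cast hy
  have e1 := Fu_le y q a X hy
  rw [hLx] at e1
  have e2 := inv_phi q hq1 X hqX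
  rw [hLx] at e2
  have e3 : (1 : ℝ) ≤ X / q := by
    rw [le_div_iff₀ hq0, one_mul]
    exact_mod_cast hqX
  have e4 : |Fu (fun n => ArithmeticFunction.vonMangoldt n) y q a| ≤ 2 * Lx * (X / q) := by
    refine e1.trans ?_
    have : (y : ℝ) / q ≤ X / q := div_le_div_of_nonneg_right hyX hq0.le
    nlinarith
  have e5 : |(y : ℝ) / Nat.totient q| ≤ 3 * Lx * (X / q) := by
    rw [abs_of_nonneg (by positivity)]
    calc (y : ℝ) / Nat.totient q = y * (1 / (Nat.totient q : ℝ)) := by ring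
      _ ≤ X * ((1 + 2 * Lx) * (1 / q)) := mul_le_mul hyX e2 (by positivity) hX0.le
      _ ≤ X * ((3 * Lx) * (1 / q)) := by
          apply mul_le_mul_of_nonneg_left _ hX0.le
          apply mul_le_mul_of_nonneg_right _ (by positivity)
          linarith
      _ = _ := by ring
  calc |Fu (fun n => ArithmeticFunction.vonMangoldt n) y q a - (y : ℝ) / Nat.totient q|
      ≤ 2 * Lx * (X / q) + 3 * Lx * (X / q) := (abs_sub _ _).trans (add_le_add e4 e5)
    _ = _ := by ring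

lemma WW_net (lam : ℕ → ℝ) (y : ℕ → ℕ) (Q' Q a X : ℕ) (Bm Lx : ℝ) (hQ : Q' ≤ Q) (hQX : Q ≤ X) (hy : ∀ q, y q ≤ X)
    (hlam : ∀ q, |lam q| ≤ Bm) (hLx : Real.log X = Lx) (hLx1 : 1 ≤ Lx) :
    |WW lam y Q a - WW lam y Q' a| ≤ 5 * Bm * Lx * X * ∑ q ∈ Ioc Q' Q, 1 / (q : ℝ) := by
  have hBm : 0 ≤ Bm := (abs_nonneg _).trans (hlam 0)
  have h1 : (Icc 1 Q).filter (fun q => a.Coprime q) =
      (Icc 1 Q').filter (fun q => a.Coprime q) ∪ (Ioc Q' Q).filter (fun q => a.Coprime q) := by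
    ext n
    simp only [mem_union, mem_filter, mem_Icc, mem_Ioc]
    constructor
    · rintro ⟨⟨h1, h2⟩, h3⟩
      rcases le_or_gt n Q' with h4 | h4
      · exact Or.inl ⟨⟨h1, h4⟩, h3⟩
      · exact Or.inr ⟨⟨h4, h2⟩, h3⟩
    · rintro (⟨⟨h1, h2⟩, h3⟩ | ⟨⟨h1, h2⟩, h3⟩)
      · exact ⟨⟨h1, h2.trans hQ⟩, h3⟩
      · exact ⟨⟨by omega, h2⟩, h3⟩
  have h2 : Disjoint ((Icc 1 Q').filter (fun q => a.Coprime q)) ((Ioc Q' Q).filter (fun q => a.Coprime q)) := by
    rw [disjoint_left]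
    intro n h1 h2
    rw [mem_filter, mem_Icc] at h1
    rw [mem_filter, mem_Ioc] at h2
    omega
  unfold WW
  rw [h1, sum_union h2, add_sub_cancel_left, mul_sum]
  refine (abs_sum_le_sum_abs _ _).trans ?_
  apply sum_filter_le
  · intro q hq
    rw [mem_Ioc] at hq
    have e1 := E_le q (y q) a X Lx (by omega) (hq.2.trans hQX) (hy q) hLx hLx1
    rw [abs_mul]
    calc |lam q| * |Fu (fun n => ArithmeticFunction.vonMangoldt n) (y q) q a - (y q : ℝ) / Nat.totient q|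
        ≤ Bm * (5 * Lx * X * (1 / (q : ℝ))) := mul_le_mul (hlam q) e1 (abs_nonneg _) hBm
      _ = _ := by ring
  · intro q _
    positivity

/-- moments of the divisor function -/
lemma tau_pow_div (m X : ℕ) : ∑ n ∈ Icc 1 X, (n.divisors.card : ℝ) ^ m / n ≤ (1 + Real.log X) ^ (2 ^ m) := by
  induction m with
  | zero =>
    simp only [pow_zero, pow_one]
    exact harm X
  | succ m ih =>
    have e1 := dir X (fun d k => ((d.divisors.card : ℝ) ^ m / d) * ((k.divisors.card : ℝ) ^ m / k))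
    have e2 : ∀ n ∈ Icc 1 X, (n.divisors.card : ℝ) ^ (m + 1) / n ≤
        ∑ d ∈ n.divisors, ((d.divisors.card : ℝ) ^ m / d) * (((n / d).divisors.card : ℝ) ^ m / ((n / d : ℕ) : ℝ)) := by
      intro n hn
      rw [mem_Icc] at hn
      have hn0 : (0 : ℝ) < n := by exact_mod_cast hn.1
      have e3 : ∀ d ∈ n.divisors, (n.divisors.card : ℝ) ^ m / n ≤
          ((d.divisors.card : ℝ) ^ m / d) * (((n / d).divisors.card : ℝ) ^ m / ((n / d : ℕ) : ℝ)) := by
        intro d hd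
        have h1 := Nat.dvd_of_mem_divisors hd
        have h2 := tau_mul d (n / d)
        rw [Nat.mul_div_cancel' h1] at h2
        have h3 : (n.divisors.card : ℝ) ^ m ≤ (d.divisors.card : ℝ) ^ m * ((n / d).divisors.card : ℝ) ^ m := by
          rw [← mul_pow]
          exact pow_le_pow_left₀ (Nat.cast_nonneg _) (by exact_mod_cast h2) m
        have h4 : (n : ℝ) = (d : ℝ) * ((n / d : ℕ) : ℝ) := by
          rw [← Nat.cast_mul, Nat.mul_div_cancel' h1]
        calc (n.divisors.card : ℝ) ^ m / n ≤ (d.divisors.card : ℝ) ^ m * ((n / d).divisors.card : ℝ) ^ m / n :=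
              div_le_div_of_nonneg_right h3 hn0.le
          _ = _ := by rw [h4, mul_div_mul_comm]
      have e4 := sum_le_sum e3
      rw [sum_const, nsmul_eq_mul] at e4
      refine le_trans (le_of_eq ?_) e4
      ring
    refine (sum_le_sum e2).trans ?_
    rw [e1]
    have hnn : ∀ k : ℕ, 0 ≤ (k.divisors.card : ℝ) ^ m / k := fun k => by positivity
    have e5 : ∀ d ∈ Icc 1 X, ∑ k ∈ Icc 1 (X / d), ((d.divisors.card : ℝ) ^ m / d) * ((k.divisors.card : ℝ) ^ m / k) ≤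
        ((d.divisors.card : ℝ) ^ m / d) * (1 + Real.log X) ^ (2 ^ m) := by
      intro d _
      rw [← mul_sum]
      apply mul_le_mul_of_nonneg_left _ (hnn d)
      refine le_trans ?_ ih
      exact sum_le_sum_of_subset_of_nonneg (Icc_subset_Icc_right (Nat.div_le_self _ _)) (fun k _ _ => hnn k)
    refine (sum_le_sum e5).trans ?_
    rw [← sum_mul]
    refine (mul_le_mul_of_nonneg_right ih (pow_nonneg (log1_nonneg X) _)).trans (le_of_eq ?_)
    rw [← pow_add, pow_succ]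
    congr 1
    omega

/-- large weights contribute little -/
lemma tail_le (lam : ℕ → ℝ) (y : ℕ → ℕ) (Q a X T : ℕ) (Bm Lx V : ℝ) (hQX : Q ≤ X) (hy : ∀ q, y q ≤ X) (hBm : 0 ≤ Bm) (hV : 0 < V)
    (hlam : ∀ q, |lam q| ≤ Bm * (q.divisors.card : ℝ) ^ T) (hLx : Real.log X = Lx) (hLx1 : 1 ≤ Lx) :
    |WW lam y Q a| ≤ |WW (fun q => if (q.divisors.card : ℝ) ^ T ≤ V then lam q else 0) y Q a| +
      5 * Bm * Lx * X / V * (1 + Lx) ^ (2 ^ (2 * T)) := by
  have hsplit : WW lam y Q a = WW (fun q => if (q.divisors.card : ℝ) ^ T ≤ V then lam q else 0) y Q a +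
      WW (fun q => if (q.divisors.card : ℝ) ^ T ≤ V then 0 else lam q) y Q a := by
    unfold WW
    rw [← sum_add_distrib]
    apply sum_congr rfl
    intro q _
    beta_reduce
    split_ifs <;> ring
  have hsecond : |WW (fun q => if (q.divisors.card : ℝ) ^ T ≤ V then 0 else lam q) y Q a| ≤
      5 * Bm * Lx * X / V * (1 + Lx) ^ (2 ^ (2 * T)) := by
    unfold WW
    refine (abs_sum_le_sum_abs _ _).trans ?_
    have h1 : ∑ q ∈ (Icc 1 Q).filter (fun q => a.Coprime q),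
        |(if (q.divisors.card : ℝ) ^ T ≤ V then 0 else lam q) *
          (Fu (fun n => ArithmeticFunction.vonMangoldt n) (y q) q a - (y q : ℝ) / Nat.totient q)| ≤
        ∑ q ∈ Icc 1 Q, 5 * Bm * Lx * X / V * ((q.divisors.card : ℝ) ^ (2 * T) / q) := by
      apply sum_filter_le
      · intro q hq
        rw [mem_Icc] at hq
        have hq0 : (0 : ℝ) < q := by exact_mod_cast hq.1
        have e1 := E_le q (y q) a X Lx hq.1 (hq.2.trans hQX) (hy q) hLx hLx1
        rw [abs_mul]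
        have e2 : |(if (q.divisors.card : ℝ) ^ T ≤ V then 0 else lam q)| ≤ Bm / V * (q.divisors.card : ℝ) ^ (2 * T) := by
          split_ifs with h
          · rw [abs_zero]; positivity
          · push Not at h
            refine (hlam q).trans ?_
            rw [div_mul_eq_mul_div, le_div_iff₀ hV, two_mul, pow_add]
            have h3 : (0 : ℝ) ≤ (q.divisors.card : ℝ) ^ T := by positivity
            calc Bm * (q.divisors.card : ℝ) ^ T * V ≤ Bm * (q.divisors.card : ℝ) ^ T * (q.divisors.card : ℝ) ^ T :=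
                  mul_le_mul_of_nonneg_left h.le (mul_nonneg hBm h3)
              _ = _ := by ring
        calc _ ≤ Bm / V * (q.divisors.card : ℝ) ^ (2 * T) * (5 * Lx * X * (1 / (q : ℝ))) :=
              mul_le_mul e2 e1 (abs_nonneg _) (by positivity)
          _ = _ := by ring
      · intro q _
        positivity
    refine h1.trans ?_
    rw [← mul_sum]
    apply mul_le_mul_of_nonneg_left _ (by positivity)
    have h2 : ∑ q ∈ Icc 1 Q, (q.divisors.card : ℝ) ^ (2 * T) / q ≤ ∑ q ∈ Icc 1 X, (q.divisors.card : ℝ) ^ (2 * T) / q :=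
      sum_le_sum_of_subset_of_nonneg (Icc_subset_Icc_right hQX) (fun q _ _ => by positivity)
    have h3 := tau_pow_div (2 * T) X
    rw [hLx] at h3
    exact h2.trans h3
  rw [hsplit]
  exact (abs_add_le _ _).trans (add_le_add le_rfl hsecond)

lemma WW_cell (lam : ℕ → ℝ) (y : ℕ → ℕ) (g : ℕ → ℕ) (Q a X D : ℕ) (Bm Lx : ℝ) (hQX : Q ≤ X) (hy : ∀ q, y q ≤ X)
    (hg : ∀ A, g A ≤ A) (hgD : ∀ A, A - g A ≤ D)
    (hlam : ∀ q, |lam q| ≤ Bm) (hLx : Real.log X = Lx) (hLx1 : 1 ≤ Lx) :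
    |WW lam y Q a| ≤ |WW lam (fun q => g (y q)) Q a| + Bm * (Lx * (D * (1 + Lx) + Q) + D * (1 + Lx) ^ 2) := by
  have hBm : 0 ≤ Bm := (abs_nonneg _).trans (hlam 0)
  have key : |WW lam y Q a - WW lam (fun q => g (y q)) Q a| ≤ Bm * (Lx * (D * (1 + Lx) + Q) + D * (1 + Lx) ^ 2) := by
    unfold WW
    rw [← sum_sub_distrib]
    refine (abs_sum_le_sum_abs _ _).trans ?_
    have h1 : ∑ q ∈ (Icc 1 Q).filter (fun q => a.Coprime q),
        |lam q * (Fu (fun n => ArithmeticFunction.vonMangoldt n) (y q) q a - (y q : ℝ) / Nat.totient q) -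
          lam q * (Fu (fun n => ArithmeticFunction.vonMangoldt n) (g (y q)) q a - (g (y q) : ℝ) / Nat.totient q)| ≤
        ∑ q ∈ Icc 1 Q, Bm * (Lx * (D * (1 / (q : ℝ)) + 1) + D * (1 / (Nat.totient q : ℝ))) := by
      apply sum_filter_le
      · intro q hq
        rw [← mul_sub, abs_mul]
        have e1 := Fu_diff (g (y q)) (y q) q a (hg _) X (hy q)
        rw [hLx] at e1
        have hD : ((y q - g (y q) : ℕ) : ℝ) ≤ D := by exact_mod_cast hgD (y q)
        have e2 : |Fu (fun n => ArithmeticFunction.vonMangoldt n) (y q) q a -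
            Fu (fun n => ArithmeticFunction.vonMangoldt n) (g (y q)) q a| ≤ Lx * (D * (1 / (q : ℝ)) + 1) := by
          refine e1.trans ?_
          rw [mul_comm]
          apply mul_le_mul_of_nonneg_left _ (by linarith)
          apply add_le_add _ le_rfl
          rw [mul_one_div]
          exact div_le_div_of_nonneg_right hD (Nat.cast_nonneg _)
        have e3 : |(y q : ℝ) / Nat.totient q - (g (y q) : ℝ) / Nat.totient q| ≤ D * (1 / (Nat.totient q : ℝ)) := by
          rw [← sub_div, ← Nat.cast_sub (hg _), abs_of_nonneg (by positivity), mul_one_div]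
          exact div_le_div_of_nonneg_right hD (Nat.cast_nonneg _)
        apply mul_le_mul (hlam q) _ (abs_nonneg _) hBm
        have e4 : Fu (fun n => ArithmeticFunction.vonMangoldt n) (y q) q a - (y q : ℝ) / Nat.totient q -
            (Fu (fun n => ArithmeticFunction.vonMangoldt n) (g (y q)) q a - (g (y q) : ℝ) / Nat.totient q) =
            (Fu (fun n => ArithmeticFunction.vonMangoldt n) (y q) q a -
            Fu (fun n => ArithmeticFunction.vonMangoldt n) (g (y q)) q a) -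
            ((y q : ℝ) / Nat.totient q - (g (y q) : ℝ) / Nat.totient q) := by ring
        rw [e4]
        exact (abs_sub _ _).trans (add_le_add e2 e3)
      · intro q _
        positivity
    refine h1.trans ?_
    rw [← mul_sum]
    apply mul_le_mul_of_nonneg_left _ hBm
    rw [sum_add_distrib, ← mul_sum, ← mul_sum, sum_add_distrib, ← mul_sum, sum_const, Nat.card_Icc, Nat.add_sub_cancel, nsmul_eq_mul, mul_one]
    have h3 := harm_le Q X hQX
    have h4 := inv_phi_sum Q X hQX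
    rw [hLx] at h3 h4
    apply add_le_add
    · apply mul_le_mul_of_nonneg_left _ (by linarith)
      exact add_le_add (mul_le_mul_of_nonneg_left h3 (Nat.cast_nonneg _)) le_rfl
    · exact mul_le_mul_of_nonneg_left h4 (Nat.cast_nonneg _)
  have := abs_sub_abs_le_abs_sub (WW lam y Q a) (WW lam (fun q => g (y q)) Q a)
  linarith

lemma WW_split (lam : ℕ → ℝ) (y : ℕ → ℕ) (Q a : ℕ) (R : Finset ℕ) (hR : ∀ q, y q ∈ R) :
    WW lam y Q a = ∑ r ∈ R, W (fun q => if y q = r then lam q else 0) Q r a := by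
  unfold WW W
  rw [sum_comm]
  apply sum_congr rfl
  intro q _
  rw [sum_eq_single (y q)]
  · beta_reduce
    rw [if_pos rfl]
  · intro r _ hr
    beta_reduce
    rw [if_neg (fun h => hr h.symm), zero_mul]
  · intro h
    exact absurd (hR q) h

/-- from the sums over `Q` in a net to all `Q` -/
lemma netQ (B T U : ℕ) : ∃ U' N0 : ℕ, ∀ N : ℕ, N0 ≤ N → ∀ (ι : Type) [Fintype ι] (S : ℕ → ι → ℝ) (M : ℕ), M ≤ (B + 1) * N →
    (∀ Q ≤ M, ∑ i, |S Q i| ≤ N * Fintype.card ι / Real.log N ^ U') →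
    (∀ i, ∀ Q ≤ M, ∀ Q' ≤ Q, |S Q i - S Q' i| ≤ 5 * Real.log N ^ T * Real.log (((B + 1) * N : ℕ) : ℝ) *
      (((B + 1) * N : ℕ) : ℝ) * ∑ q ∈ Ioc Q' Q, 1 / (q : ℝ)) →
    ∀ Q : ι → ℕ, (∀ i, Q i ≤ M) → ∑ i, |S (Q i) i| ≤ N * Fintype.card ι / Real.log N ^ U := by
  obtain ⟨k, hk⟩ : ∃ k, k = T + U + 3 := ⟨_, rfl⟩
  obtain ⟨U', hU'⟩ : ∃ U', U' = U + k + 4 := ⟨_, rfl⟩
  obtain ⟨n2, h2⟩ := large (max (10 * (B + 1) + 10) (Real.log (B + 1))) 3
  refine ⟨U', n2, fun N hN ι _ S M hM hS1 hS2 Q hQ => ?_⟩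
  obtain ⟨hN1, hLK, hL1⟩ := h2 N hN
  obtain ⟨L, hL⟩ : ∃ L, L = Real.log (N : ℝ) := ⟨_, rfl⟩
  rw [← hL] at hLK hL1 hS1 hS2 ⊢
  have hLB : 10 * ((B : ℝ) + 1) + 10 ≤ L := (le_max_left _ _).trans hLK
  have hLl : Real.log ((B : ℝ) + 1) ≤ L := (le_max_right _ _).trans hLK
  have hB0 : (0 : ℝ) ≤ B := Nat.cast_nonneg _
  have hL0 : 0 < L := by linarith
  have hN0 : (0 : ℝ) < N := by exact_mod_cast (by omega : 0 < N)
  obtain ⟨X, hX⟩ : ∃ X : ℕ, X = (B + 1) * N := ⟨_, rfl⟩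
  rw [← hX] at hM hS2
  obtain ⟨Lx, hLx⟩ : ∃ Lx, Lx = Real.log (X : ℝ) := ⟨_, rfl⟩
  rw [← hLx] at hS2
  have hX1 : 1 ≤ X := by
    rw [hX]
    exact Nat.succ_le_of_lt (Nat.mul_pos (by omega) (by omega))
  have hXN : (X : ℝ) = (B + 1) * N := by rw [hX]; push_cast; ring
  have hLx2 : Lx ≤ 2 * L := by
    rw [hLx, hXN, Real.log_mul (by positivity) hN0.ne', ← hL]
    linarith
  have hLx0 : 0 ≤ Lx := by rw [hLx]; exact Real.log_natCast_nonneg X
  obtain ⟨R, hR⟩ : ∃ R : ℕ, R = ⌈L ^ k⌉₊ := ⟨_, rfl⟩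
  have hR1 : L ^ k ≤ R := by rw [hR]; exact Nat.le_ceil _
  have hLk1 : 1 ≤ L ^ k := one_le_pow₀ hL1
  have hR2 : (R : ℝ) ≤ L ^ k + 1 := by
    rw [hR]
    exact (Nat.ceil_lt_add_one (by positivity)).le
  have hR3 : 1 ≤ R := by
    have : (1 : ℝ) ≤ R := hLk1.trans hR1
    exact_mod_cast this
  have hnet : ((nets R (Nat.log 2 X)).card : ℝ) ≤ L ^ (k + 3) := by
    have q1 : ((nets R (Nat.log 2 X)).card : ℝ) ≤ ((Nat.log 2 X : ℕ) + 1) * (R + 1) + 1 := by exact_mod_cast nets_card R (Nat.log 2 X)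
    have q2 := log2_le X hX1
    rw [← hLx] at q2
    have q3 : ((Nat.log 2 X : ℕ) : ℝ) + 1 ≤ 5 * L := by linarith
    have q4 : (R : ℝ) + 1 ≤ 3 * L ^ k := by linarith
    calc ((nets R (Nat.log 2 X)).card : ℝ) ≤ ((Nat.log 2 X : ℕ) + 1) * (R + 1) + 1 := q1
      _ ≤ 5 * L * (3 * L ^ k) + 1 := add_le_add (mul_le_mul q3 q4 (by positivity) (by positivity)) le_rfl
      _ ≤ L ^ (k + 3) := by
          rw [pow_add]
          have : 5 * L * 3 + 1 ≤ L ^ 3 := by nlinarith [mul_pos hL0 hL0]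
          nlinarith
  have q1 := net_sum S M (gn R) (nets R (Nat.log 2 X)) _ (5 * L ^ T * Lx * X * (1 / R))
    (fun A hA => ⟨gn_le R A, gn_mem R A X hR3 (hA.trans hM)⟩) hS1 (by
      intro i A hA
      have q2 := hS2 i A hA (gn R A) (gn_le R A)
      have q3 := abs_sub_abs_le_abs_sub (S A i) (S (gn R A) i)
      have q4 : 5 * L ^ T * Lx * X * ∑ q ∈ Ioc (gn R A) A, 1 / (q : ℝ) ≤ 5 * L ^ T * Lx * X * (1 / R) :=
        mul_le_mul_of_nonneg_left (sum_inv_near R A hR3) (by positivity)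
      linarith) Q hQ
  refine q1.trans ?_
  have q2 : ((nets R (Nat.log 2 X)).card : ℝ) * (N * Fintype.card ι / L ^ U') ≤ L ^ (k + 3) * (N * Fintype.card ι / L ^ U') :=
    mul_le_mul_of_nonneg_right hnet (by positivity)
  have q3 : L ^ (k + 3) * (N * Fintype.card ι / L ^ U') = N * Fintype.card ι / L ^ U * (1 / L) := by
    rw [hU', show U + k + 4 = U + (k + 3) + 1 by ring, pow_succ L (U + (k + 3)), pow_add L U]
    field_simp
  have q4 : 5 * L ^ T * Lx * X * (1 / R) ≤ 10 * (B + 1) * (N / L ^ U) * (1 / L ^ 2) := by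
    have e1 : (1 : ℝ) / R ≤ 1 / L ^ k := one_div_le_one_div_of_le (by positivity) hR1
    calc 5 * L ^ T * Lx * X * (1 / R) ≤ 5 * L ^ T * (2 * L) * X * (1 / L ^ k) := by gcongr
      _ = 10 * (B + 1) * (N / L ^ U) * (1 / L ^ 2) := by
          rw [hXN, hk, pow_add, pow_add]
          field_simp
          ring
  have q5 : (Fintype.card ι : ℝ) * (5 * L ^ T * Lx * X * (1 / R)) ≤ N * Fintype.card ι / L ^ U * (10 * (B + 1) / L ^ 2) := by
    calc (Fintype.card ι : ℝ) * (5 * L ^ T * Lx * X * (1 / R)) ≤ Fintype.card ι * (10 * (B + 1) * (N / L ^ U) * (1 / L ^ 2)) :=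
          mul_le_mul_of_nonneg_left q4 (Nat.cast_nonneg _)
      _ = _ := by ring
  rw [q3] at q2
  have q6 : 1 / L + 10 * ((B : ℝ) + 1) / L ^ 2 ≤ 1 := by
    have e3 : 1 / L + 10 * ((B : ℝ) + 1) / L ^ 2 = (L + 10 * (B + 1)) / L ^ 2 := by field_simp
    rw [e3, div_le_one (by positivity)]
    nlinarith
  have q7 : 0 ≤ (N : ℝ) * Fintype.card ι / L ^ U := by positivity
  calc _ ≤ N * Fintype.card ι / L ^ U * (1 / L) + N * Fintype.card ι / L ^ U * (10 * (B + 1) / L ^ 2) := add_le_add q2 q5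
    _ = N * Fintype.card ι / L ^ U * (1 / L + 10 * (B + 1) / L ^ 2) := by ring
    _ ≤ _ := mul_le_of_le_one_right q7 q6

end Pool.Agent.TH212.EH
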