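import Pool.Agent.TH212.EH.A4

set_option autoImplicit false

/-! Weighted discrepancies along a thin family: all numbers of moduli, all lengths. -/

namespace Pool.Agent.TH212.EH
open Finset
open Pool.Agent.W93.LV

lemma level_anti (K K' N : ℕ) (h : K ≤ K') : level K' N ≤ level K N := by
  unfold level
  apply div_le_div_of_nonneg_left (Nat.cast_nonneg _) (Real.exp_pos _)
  apply Real.exp_le_exp.2
  apply mul_le_mul_of_nonneg_right _ (by positivity)
  exact_mod_cast h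

lemma level_le (k K N : ℕ) (hk : k ≤ K) (hN : Real.exp 1 ≤ Real.log N) : level K N ≤ N / Real.log N ^ k := by
  unfold level
  have hL0 : 0 < Real.log (N : ℝ) := lt_of_lt_of_le (Real.exp_pos 1) hN
  have hl1 : 1 ≤ Real.log (Real.log (N : ℝ)) := by
    rw [Real.le_log_iff_exp_le hL0]
    exact hN
  apply div_le_div_of_nonneg_left (Nat.cast_nonneg _) (by positivity)
  have e : Real.log (N : ℝ) ^ k = Real.exp (k * Real.log (Real.log (N : ℝ))) := by
    rw [Real.exp_nat_mul, Real.exp_log hL0]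
  rw [e]
  apply Real.exp_le_exp.2
  have h1 : (k : ℝ) ≤ K := by exact_mod_cast hk
  have h2 : Real.log (Real.log (N : ℝ)) ≤ Real.log (Real.log (N : ℝ)) ^ 2 := by nlinarith
  have h3 : (0 : ℝ) ≤ k := Nat.cast_nonneg _
  nlinarith

lemma level_leN (K N : ℕ) : level K N ≤ N := by
  unfold level
  apply div_le_self (Nat.cast_nonneg _)
  rw [← Real.exp_zero]
  apply Real.exp_le_exp.2
  positivity

/-- lengths depending on the modulus, for a fixed `Q` -/
theorem cellQ (p B C T U : ℕ) : ∃ K N0 : ℕ, ∀ N : ℕ, N0 ≤ N → ∀ (ι : Type) [Fintype ι] (v : ι → ℤ),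
    (∀ i, |v i| ≤ B * N) → (En p v : ℝ) * N ≤ Real.log N ^ C * (Fintype.card ι : ℝ) ^ (2 * p) →
    ∀ lam : ℕ → ℝ, (∀ q, |lam q| ≤ Real.log N ^ T) → ∀ Q : ℕ, (Q : ℝ) ≤ level K N →
    ∀ y : ℕ → ℕ, (∀ q, y q ≤ B * N) →
    ∑ i ∈ univ.filter (fun i => 0 < v i), |WW lam y Q (v i).toNat| ≤ N * Fintype.card ι / Real.log N ^ U := by
  classical
  obtain ⟨k, hk⟩ : ∃ k, k = T + U + 5 := ⟨_, rfl⟩
  obtain ⟨U', hU'⟩ : ∃ U', U' = U + k + 2 := ⟨_, rfl⟩
  obtain ⟨K1, n0, h0⟩ := fixQ p B C T U'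
  obtain ⟨n2, h2⟩ := large (max (20 + B) (Real.log (B + 1))) (n0 + 3)
  refine ⟨max K1 k, n2, fun N hN ι _ v hv hE lam hlam Q hQ y hy => ?_⟩
  obtain ⟨hN1, hLK, hL1⟩ := h2 N hN
  have hLK1 : 20 + (B : ℝ) ≤ Real.log N := (le_max_left _ _).trans hLK
  have hB0 : (0 : ℝ) ≤ B := Nat.cast_nonneg _
  have hexp : Real.exp 1 ≤ Real.log N := by linarith [Real.exp_one_lt_d9]
  have hQ1 : (Q : ℝ) ≤ level K1 N := hQ.trans (level_anti _ _ _ (le_max_left _ _))
  have hQ2 : (Q : ℝ) ≤ N / Real.log N ^ k := hQ.trans (level_le _ _ _ (le_max_right _ _) hexp)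
  have hQN : (Q : ℝ) ≤ N := hQ.trans (level_leN _ _)
  have c0 := fun lam' hlam' => h0 N (by omega) ι v hv hE lam' hlam' Q hQ1
  obtain ⟨L, hL⟩ : ∃ L, L = Real.log (N : ℝ) := ⟨_, rfl⟩
  rw [← hL] at hLK hL1 hlam c0 hE hexp hQ2 hLK1 ⊢
  have hLl : Real.log ((B : ℝ) + 1) ≤ L := (le_max_right _ _).trans hLK
  have hL0 : 0 < L := by linarith
  have hN0 : (0 : ℝ) < N := by exact_mod_cast (by omega : 0 < N)
  obtain ⟨X, hX⟩ : ∃ X : ℕ, X = (B + 1) * N := ⟨_, rfl⟩
  obtain ⟨Lx, hLx⟩ : ∃ Lx, Lx = Real.log (X : ℝ) := ⟨_, rfl⟩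
  have hXN : (X : ℝ) = (B + 1) * N := by rw [hX]; push_cast; ring
  have hNX : N ≤ X := by rw [hX]; exact Nat.le_mul_of_pos_left _ (by omega)
  have hLx2 : Lx ≤ 2 * L := by
    rw [hLx, hXN, Real.log_mul (by positivity) hN0.ne', ← hL]
    linarith
  have hLx1 : L ≤ Lx := by
    rw [hL, hLx]
    exact Real.log_le_log hN0 (by exact_mod_cast hNX)
  have hQX : Q ≤ X := by
    have : Q ≤ N := by exact_mod_cast hQN
    omega
  have hBX : B * N ≤ X := by rw [hX]; exact Nat.mul_le_mul_right _ (by omega)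
  -- cells
  obtain ⟨D, hD⟩ : ∃ D : ℕ, D = ⌊(N : ℝ) / L ^ k⌋₊ := ⟨_, rfl⟩
  have hD1 : (D : ℝ) ≤ N / L ^ k := by rw [hD]; exact Nat.floor_le (by positivity)
  have hD2 : (N : ℝ) / L ^ k < D + 1 := by rw [hD]; exact Nat.lt_floor_add_one _
  obtain ⟨J, hJ⟩ : ∃ J : ℕ, J = B * N / (D + 1) := ⟨_, rfl⟩
  have hJ1 : (J : ℝ) ≤ B * L ^ k := by
    have q1 : (J : ℝ) ≤ ((B * N : ℕ) : ℝ) / ((D + 1 : ℕ) : ℝ) := by rw [hJ]; exact Nat.cast_div_le
    refine q1.trans ?_
    push_cast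
    rw [div_le_iff₀ (by positivity)]
    rw [div_lt_iff₀ (by positivity)] at hD2
    nlinarith
  obtain ⟨g, hg⟩ : ∃ g : ℕ → ℕ, g = fun A => (D + 1) * (A / (D + 1)) := ⟨_, rfl⟩
  obtain ⟨R, hR⟩ : ∃ R : Finset ℕ, R = ((range (J + 1)).image (fun j => (D + 1) * j)).filter (fun r => r ≤ B * N) := ⟨_, rfl⟩
  have hRc : (R.card : ℝ) ≤ L ^ (k + 1) := by
    have q1 : R.card ≤ J + 1 := by
      rw [hR]
      refine (card_filter_le _ _).trans ?_
      refine card_image_le.trans ?_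
      rw [card_range]
    have q2 : (1 : ℝ) ≤ L ^ k := one_le_pow₀ hL1
    calc (R.card : ℝ) ≤ J + 1 := by exact_mod_cast q1
      _ ≤ B * L ^ k + L ^ k := add_le_add hJ1 q2
      _ = (B + 1) * L ^ k := by ring
      _ ≤ L * L ^ k := mul_le_mul_of_nonneg_right (by linarith) (by positivity)
      _ = L ^ (k + 1) := by ring
  have hgle : ∀ A, g A ≤ A := by
    intro A
    rw [hg]
    exact Nat.mul_div_le _ _
  have hgR : ∀ A ≤ B * N, g A ∈ R := by
    intro A hA
    rw [hR, mem_filter]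
    refine ⟨?_, (hgle A).trans hA⟩
    rw [hg]
    refine mem_image.2 ⟨A / (D + 1), ?_, rfl⟩
    rw [mem_range, hJ]
    exact Nat.lt_succ_of_le (Nat.div_le_div_right hA)
  have hgD : ∀ A, A - g A ≤ D := by
    intro A
    rw [hg]
    simp only
    have q1 := Nat.div_add_mod A (D + 1)
    have q2 := Nat.mod_lt A (by omega : D + 1 > 0)
    omega
  -- each member
  obtain ⟨err, herr⟩ : ∃ err, err = L ^ T * (Lx * (D * (1 + Lx) + Q) + D * (1 + Lx) ^ 2) := ⟨_, rfl⟩
  have hone : ∀ a : ℕ, |WW lam y Q a| ≤ ∑ r ∈ R, |W (fun q => if g (y q) = r then lam q else 0) Q r a| + err := by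
    intro a
    have q1 := WW_cell lam y g Q a X D (L ^ T) Lx hQX (fun q => (hy q).trans hBX) hgle hgD hlam hLx.symm (by linarith)
    rw [WW_split lam (fun q => g (y q)) Q a R (fun q => hgR _ (hy q))] at q1
    have q2 := abs_sum_le_sum_abs (fun r => W (fun q => if g (y q) = r then lam q else 0) Q r a) R
    rw [herr]
    linarith
  have herr2 : err ≤ 17 * N / L ^ (U + 3) := by
    have e1 : 1 + Lx ≤ 3 * L := by linarith
    have e2 : 0 ≤ Lx := by linarith
    calc err ≤ L ^ T * ((2 * L) * (N / L ^ k * (3 * L) + N / L ^ k) + N / L ^ k * (3 * L) ^ 2) := by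
          rw [herr]; gcongr
      _ ≤ L ^ T * (17 * L ^ 2 * (N / L ^ k)) := by
          apply mul_le_mul_of_nonneg_left _ (by positivity)
          have : 0 ≤ (N : ℝ) / L ^ k := by positivity
          nlinarith [mul_nonneg this (by nlinarith : (0 : ℝ) ≤ 2 * L ^ 2 - 2 * L)]
      _ = _ := by
          rw [hk, show T + U + 5 = T + 2 + (U + 3) by ring, pow_add, pow_add]
          field_simp
  have hbound : ∀ r ∈ R, ∑ i ∈ univ.filter (fun i => 0 < v i),
      |W (fun q => if g (y q) = r then lam q else 0) Q r (v i).toNat| ≤ N * Fintype.card ι / L ^ U' := by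
    intro r hr
    rw [hR, mem_filter] at hr
    exact c0 (fun q => if g (y q) = r then lam q else 0) (by
      intro q

      split_ifs
      · exact hlam q
      · rw [abs_zero]; positivity) (fun _ => r) (fun _ => hr.2)
  refine (sum_le_sum fun i _ => hone _).trans ?_
  rw [sum_add_distrib, sum_comm, sum_const, nsmul_eq_mul]
  have k1 : ∑ r ∈ R, ∑ i ∈ univ.filter (fun i => 0 < v i),
      |W (fun q => if g (y q) = r then lam q else 0) Q r (v i).toNat| ≤ L ^ (k + 1) * (N * Fintype.card ι / L ^ U') := by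
    refine (sum_le_sum hbound).trans ?_
    rw [sum_const, nsmul_eq_mul]
    exact mul_le_mul_of_nonneg_right hRc (by positivity)
  have k2 : ((univ.filter (fun i => 0 < v i)).card : ℝ) * err ≤ Fintype.card ι * (17 * N / L ^ (U + 3)) := by
    apply mul_le_mul _ herr2 _ (Nat.cast_nonneg _)
    · exact_mod_cast card_le_univ _
    · rw [herr]
      have : 0 ≤ Lx := by linarith
      positivity
  have e1 : L ^ (k + 1) * (N * Fintype.card ι / L ^ U') = N * Fintype.card ι / L ^ U * (1 / L) := by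
    rw [hU', show U + k + 2 = U + (k + 1) + 1 by ring, pow_succ L (U + (k + 1)), pow_add L U]
    field_simp
  have e2 : (Fintype.card ι : ℝ) * (17 * N / L ^ (U + 3)) = N * Fintype.card ι / L ^ U * (17 / L ^ 3) := by
    rw [pow_add]
    field_simp
  rw [e1] at k1
  rw [e2] at k2
  have q6 : 1 / L + 17 / L ^ 3 ≤ 1 := by
    have e3 : 1 / L + 17 / L ^ 3 = (L ^ 2 + 17) / L ^ 3 := by field_simp
    rw [e3, div_le_one (by positivity)]
    nlinarith [mul_pos hL0 hL0, mul_nonneg hL0.le (mul_pos hL0 hL0).le]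
  have q7 : 0 ≤ (N : ℝ) * Fintype.card ι / L ^ U := by positivity
  calc _ ≤ N * Fintype.card ι / L ^ U * (1 / L) + N * Fintype.card ι / L ^ U * (17 / L ^ 3) := add_le_add k1 k2
    _ = N * Fintype.card ι / L ^ U * (1 / L + 17 / L ^ 3) := by ring
    _ ≤ _ := mul_le_of_le_one_right q7 q6

/-- all numbers of moduli -/
theorem allQ (p B C T U : ℕ) : ∃ K N0 : ℕ, ∀ N : ℕ, N0 ≤ N → ∀ (ι : Type) [Fintype ι] (v : ι → ℤ),
    (∀ i, |v i| ≤ B * N) → (En p v : ℝ) * N ≤ Real.log N ^ C * (Fintype.card ι : ℝ) ^ (2 * p) →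
    ∀ lam : ℕ → ℝ, (∀ q, |lam q| ≤ Real.log N ^ T) → ∀ Q : ι → ℕ, (∀ i, (Q i : ℝ) ≤ level K N) →
    (∀ y : ι → ℕ, (∀ i, y i ≤ B * N) →
      ∑ i ∈ univ.filter (fun i => 0 < v i), |W lam (Q i) (y i) (v i).toNat| ≤ N * Fintype.card ι / Real.log N ^ U) ∧
    (∀ y : ℕ → ℕ, (∀ q, y q ≤ B * N) →
      ∑ i ∈ univ.filter (fun i => 0 < v i), |WW lam y (Q i) (v i).toNat| ≤ N * Fintype.card ι / Real.log N ^ U) := by
  classical
  obtain ⟨U', n1, hnet⟩ := netQ B T U
  obtain ⟨K1, n2, h1⟩ := fixQ p B C T U'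
  obtain ⟨K2, n3, h2⟩ := cellQ p B C T U'
  obtain ⟨n4, h4⟩ := large 3 (n1 + n2 + n3 + 3)
  refine ⟨max K1 K2, n4, fun N hN ι _ v hv hE lam hlam Q hQ => ?_⟩
  obtain ⟨hN1, hL3, hL1⟩ := h4 N hN
  have c1 := h1 N (by omega) ι v hv hE lam hlam
  have c2 := h2 N (by omega) ι v hv hE lam hlam
  have c3 := hnet N (by omega) ι
  have hN0 : (0 : ℝ) < N := by exact_mod_cast (by omega : 0 < N)
  obtain ⟨M, hM⟩ : ∃ M : ℕ, M = ⌊level (max K1 K2) N⌋₊ := ⟨_, rfl⟩
  have hlev0 : 0 ≤ level (max K1 K2) N := by unfold level; positivity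
  have hM1 : ∀ A : ℕ, A ≤ M → (A : ℝ) ≤ level (max K1 K2) N := by
    intro A hA
    rw [hM] at hA
    exact (Nat.le_floor_iff hlev0).1 hA
  have hMQ : ∀ i, Q i ≤ M := fun i => by rw [hM]; exact Nat.le_floor (hQ i)
  have hMN : M ≤ N := by
    have : (M : ℝ) ≤ N := (hM1 M le_rfl).trans (level_leN _ _)
    exact_mod_cast this
  have hMX : M ≤ (B + 1) * N := hMN.trans (Nat.le_mul_of_pos_left _ (by omega))
  have hBX : B * N ≤ (B + 1) * N := Nat.mul_le_mul_right _ (by omega)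
  have hlogX : 1 ≤ Real.log (((B + 1) * N : ℕ) : ℝ) := by
    refine hL1.trans ?_
    apply Real.log_le_log hN0
    exact_mod_cast (Nat.le_mul_of_pos_left _ (by omega) : N ≤ (B + 1) * N)
  have hfil : ∀ F : ι → ℝ, ∑ i, |(if 0 < v i then F i else 0)| = ∑ i ∈ univ.filter (fun i => 0 < v i), |F i| := by
    intro F
    rw [sum_filter]
    apply sum_congr rfl
    intro i _
    split_ifs
    · rfl
    · exact abs_zero
  constructor
  · intro y hy
    have := c3 (fun A i => if 0 < v i then W lam A (y i) (v i).toNat else 0) M hMX (by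
      intro A hA
      rw [hfil]
      exact c1 A ((hM1 A hA).trans (level_anti _ _ _ (le_max_left _ _))) y hy) (by
      intro i A hA A' hA'

      split_ifs
      · exact WW_net lam (fun _ => y i) A' A (v i).toNat ((B + 1) * N) (Real.log N ^ T) _ hA' (hA.trans hMX)
          (fun _ => (hy i).trans hBX) hlam rfl hlogX
      · rw [sub_zero, abs_zero]
        have : 0 ≤ Real.log (((B + 1) * N : ℕ) : ℝ) := by linarith
        positivity) Q hMQ
    rw [hfil] at this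
    exact this
  · intro y hy
    have := c3 (fun A i => if 0 < v i then WW lam y A (v i).toNat else 0) M hMX (by
      intro A hA
      rw [hfil]
      exact c2 A ((hM1 A hA).trans (level_anti _ _ _ (le_max_right _ _))) y hy) (by
      intro i A hA A' hA'

      split_ifs
      · exact WW_net lam y A' A (v i).toNat ((B + 1) * N) (Real.log N ^ T) _ hA' (hA.trans hMX)
          (fun q => (hy q).trans hBX) hlam rfl hlogX
      · rw [sub_zero, abs_zero]
        have : 0 ≤ Real.log (((B + 1) * N : ℕ) : ℝ) := by linarith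
        positivity) Q hMQ
    rw [hfil] at this
    exact this

/-- weights bounded by powers of the logarithm and of the divisor function -/
theorem allW (p B C T U : ℕ) : ∃ K N0 : ℕ, ∀ N : ℕ, N0 ≤ N → ∀ (ι : Type) [Fintype ι] (v : ι → ℤ),
    (∀ i, |v i| ≤ B * N) → (En p v : ℝ) * N ≤ Real.log N ^ C * (Fintype.card ι : ℝ) ^ (2 * p) →
    ∀ lam : ℕ → ℝ, (∀ q, |lam q| ≤ Real.log N ^ T * (q.divisors.card : ℝ) ^ T) → ∀ Q : ι → ℕ, (∀ i, (Q i : ℝ) ≤ level K N) →
    (∀ y : ι → ℕ, (∀ i, y i ≤ B * N) →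
      ∑ i ∈ univ.filter (fun i => 0 < v i), |W lam (Q i) (y i) (v i).toNat| ≤ N * Fintype.card ι / Real.log N ^ U) ∧
    (∀ y : ℕ → ℕ, (∀ q, y q ≤ B * N) →
      ∑ i ∈ univ.filter (fun i => 0 < v i), |WW lam y (Q i) (v i).toNat| ≤ N * Fintype.card ι / Real.log N ^ U) := by
  classical
  obtain ⟨m, hm⟩ : ∃ m, m = 2 ^ (2 * T) := ⟨_, rfl⟩
  obtain ⟨V0, hV0⟩ : ∃ V0, V0 = T + m + U + 3 := ⟨_, rfl⟩
  obtain ⟨K, n1, h1⟩ := allQ p B C (T + V0) (U + 1)
  obtain ⟨n4, h4⟩ := large (max (20 * (B + 1) * 3 ^ m + 2) (Real.log (B + 1))) (n1 + 3)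
  refine ⟨K, n4, fun N hN ι _ v hv hE lam hlam Q hQ => ?_⟩
  obtain ⟨hN1, hLK, hL1⟩ := h4 N hN
  have c1 := h1 N (by omega) ι v hv hE
  have hN0 : (0 : ℝ) < N := by exact_mod_cast (by omega : 0 < N)
  have hQN : ∀ i, (Q i : ℝ) ≤ N := fun i => (hQ i).trans (level_leN _ _)
  obtain ⟨L, hL⟩ : ∃ L, L = Real.log (N : ℝ) := ⟨_, rfl⟩
  rw [← hL] at hLK hL1 hlam c1 ⊢
  have hB0 : (0 : ℝ) ≤ B := Nat.cast_nonneg _
  have hLl : Real.log ((B : ℝ) + 1) ≤ L := (le_max_right _ _).trans hLK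
  have hLb : 20 * ((B : ℝ) + 1) * 3 ^ m + 2 ≤ L := (le_max_left _ _).trans hLK
  have h3m : (0 : ℝ) ≤ 20 * ((B : ℝ) + 1) * 3 ^ m := by positivity
  have hL2 : 2 ≤ L := by linarith
  have hL0 : 0 < L := by linarith
  obtain ⟨X, hX⟩ : ∃ X : ℕ, X = (B + 1) * N := ⟨_, rfl⟩
  obtain ⟨Lx, hLx⟩ : ∃ Lx, Lx = Real.log (X : ℝ) := ⟨_, rfl⟩
  have hXN : (X : ℝ) = (B + 1) * N := by rw [hX]; push_cast; ring
  have hNX : N ≤ X := by rw [hX]; exact Nat.le_mul_of_pos_left _ (by omega)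
  have hLx2 : Lx ≤ 2 * L := by
    rw [hLx, hXN, Real.log_mul (by positivity) hN0.ne', ← hL]
    linarith
  have hLx1 : L ≤ Lx := by
    rw [hL, hLx]
    exact Real.log_le_log hN0 (by exact_mod_cast hNX)
  have hQX : ∀ i, Q i ≤ X := by
    intro i
    have : Q i ≤ N := by exact_mod_cast hQN i
    omega
  have hBX : B * N ≤ X := by rw [hX]; exact Nat.mul_le_mul_right _ (by omega)
  obtain ⟨lam1, hlam1⟩ : ∃ lam1 : ℕ → ℝ, lam1 = fun q => if (q.divisors.card : ℝ) ^ T ≤ L ^ V0 then lam q else 0 := ⟨_, rfl⟩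
  have hlam1b : ∀ q, |lam1 q| ≤ L ^ (T + V0) := by
    intro q
    rw [hlam1]
    simp only
    split_ifs with h
    · refine (hlam q).trans ?_
      rw [pow_add]
      exact mul_le_mul_of_nonneg_left h (by positivity)
    · rw [abs_zero]; positivity
  obtain ⟨err, herr⟩ : ∃ err, err = 5 * L ^ T * Lx * X / L ^ V0 * (1 + Lx) ^ (2 ^ (2 * T)) := ⟨_, rfl⟩
  have herr2 : err ≤ 1 / 2 * (N / L ^ U) := by
    have e1 : 1 + Lx ≤ 3 * L := by linarith
    have e2 : 0 ≤ Lx := by linarith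
    calc err ≤ 5 * L ^ T * (2 * L) * ((B + 1) * N) / L ^ V0 * (3 * L) ^ m := by
          rw [herr, ← hm, hXN]; gcongr
      _ = 10 * (B + 1) * 3 ^ m * (N / L ^ U) * (1 / L ^ 2) := by
          rw [hV0, mul_pow, show T + m + U + 3 = T + m + U + 2 + 1 by ring, pow_succ L (T + m + U + 2), pow_add L (T + m + U), pow_add, pow_add]
          field_simp
          ring
      _ ≤ 1 / 2 * (N / L ^ U) := by
          have e3 : 10 * ((B : ℝ) + 1) * 3 ^ m * (1 / L ^ 2) ≤ 1 / 2 := by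
            rw [mul_one_div, div_le_iff₀ (by positivity)]
            nlinarith
          have e4 : 0 ≤ (N : ℝ) / L ^ U := by positivity
          calc 10 * (B + 1) * 3 ^ m * (N / L ^ U) * (1 / L ^ 2) = 10 * ((B : ℝ) + 1) * 3 ^ m * (1 / L ^ 2) * (N / L ^ U) := by ring
            _ ≤ _ := mul_le_mul_of_nonneg_right e3 e4
  have hone : ∀ (y : ℕ → ℕ) (i : ι) (a : ℕ), (∀ q, y q ≤ B * N) → |WW lam y (Q i) a| ≤ |WW lam1 y (Q i) a| + err := by
    intro y i a hy
    have := tail_le lam y (Q i) a X T (L ^ T) Lx (L ^ V0) (hQX i) (fun q => (hy q).trans hBX) (by positivity) (by positivity)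
      hlam hLx.symm (by linarith)
    rw [hlam1, herr]
    exact this
  have hfin : ∀ (F G : ι → ℝ), (∀ i, F i ≤ G i + err) → ∑ i ∈ univ.filter (fun i => 0 < v i), G i ≤ N * Fintype.card ι / L ^ (U + 1) →
      ∑ i ∈ univ.filter (fun i => 0 < v i), F i ≤ N * Fintype.card ι / L ^ U := by
    intro F G hF hG
    refine (sum_le_sum fun i _ => hF i).trans ?_
    rw [sum_add_distrib, sum_const, nsmul_eq_mul]
    have herr0 : 0 ≤ err := by
      rw [herr]
      have : 0 ≤ Lx := by linarith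
      positivity
    have k2 : ((univ.filter (fun i => 0 < v i)).card : ℝ) * err ≤ Fintype.card ι * (1 / 2 * (N / L ^ U)) := by
      apply mul_le_mul _ herr2 herr0 (Nat.cast_nonneg _)
      exact_mod_cast card_le_univ _
    have k3 : (N : ℝ) * Fintype.card ι / L ^ (U + 1) ≤ 1 / 2 * (N * Fintype.card ι / L ^ U) := by
      have e : (N : ℝ) * Fintype.card ι / L ^ (U + 1) = 1 / L * (N * Fintype.card ι / L ^ U) := by
        rw [pow_succ]; field_simp
      rw [e]
      apply mul_le_mul_of_nonneg_right _ (by positivity)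
      exact one_div_le_one_div_of_le (by norm_num) hL2
    calc _ ≤ 1 / 2 * (N * Fintype.card ι / L ^ U) + Fintype.card ι * (1 / 2 * (N / L ^ U)) := add_le_add (hG.trans k3) k2
      _ = _ := by ring
  constructor
  · intro y hy
    have c2 := (c1 lam1 hlam1b Q hQ).1 y hy
    exact hfin _ _ (fun i => hone (fun _ => y i) i (v i).toNat (fun _ => hy i)) c2
  · intro y hy
    have c2 := (c1 lam1 hlam1b Q hQ).2 y hy
    exact hfin _ _ (fun i => hone y i (v i).toNat hy) c2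

end Pool.Agent.TH212.EH
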